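import Mathlib

set_option autoImplicit false
open Filter

/-!
# Pfluger's constant: definitions

`T(r,f)` is `ValueDistribution.characteristic f ⊤ r` and `N(r,a)` is
`ValueDistribution.logCounting f a r` (`a : WithTop ℂ`, the value `∞` is `⊤`).
-/

namespace Pool.Agent.H9.Pf

open ValueDistribution

/-- The order `limsup log T(r,f) / log r`. -/
noncomputable def order (f : ℂ → ℂ) : EReal :=
  limsup (fun r : ℝ => ((Real.log (characteristic f ⊤ r) / Real.log r : ℝ) : EReal)) atTop

/-- The lower order `liminf log T(r,f) / log r`. -/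
noncomputable def lowerOrder (f : ℂ → ℂ) : EReal :=
  liminf (fun r : ℝ => ((Real.log (characteristic f ⊤ r) / Real.log r : ℝ) : EReal)) atTop

/-- The deficiency `δ(a,f) = 1 - limsup N(r,a) / T(r,f)`. -/
noncomputable def deficiency (f : ℂ → ℂ) (a : WithTop ℂ) : EReal :=
  1 - limsup (fun r : ℝ => ((logCounting f a r / characteristic f ⊤ r : ℝ) : EReal)) atTop

/-- The sum of the deficiencies over all `a` in `ℂ ∪ {∞}`. -/
noncomputable def deficiencySum (f : ℂ → ℂ) : EReal :=
  ((∑' a : WithTop ℂ, (deficiency f a).toENNReal : ENNReal) : EReal)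

/-- `K(ρ) = inf {2 - Σ δ(a,f) : f entire of order ρ}`. -/
noncomputable def K (ρ : ℝ) : EReal :=
  ⨅ f : {f : ℂ → ℂ // Differentiable ℂ f ∧ order f = (ρ : EReal)}, (2 - deficiencySum f.1)

end Pool.Agent.H9.Pf
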