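import Mathlib

set_option autoImplicit false
open MeasureTheory Filter Topology Metric Real

namespace Pool.Agent.H9.Pf

/-- the multiplicity of the zero of `h` at `a` -/
noncomputable def D (h : ℂ → ℂ) (a : ℂ) : ℕ := analyticOrderNatAt h a

theorem order_ne_top {h : ℂ → ℂ} (hh : Differentiable ℂ h) (hne : ∃ z, h z ≠ 0) (a : ℂ) :
    analyticOrderAt h a ≠ ⊤ := by
  intro ht
  obtain ⟨z, hz⟩ := hne
  rw [analyticOrderAt_eq_top] at ht
  have han : AnalyticOnNhd ℂ h Set.univ := fun w _ => hh.analyticAt w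
  exact hz (han.eqOn_zero_of_preconnected_of_eventuallyEq_zero isPreconnected_univ
    (Set.mem_univ a) ht (Set.mem_univ z))

theorem factor_one {h : ℂ → ℂ} (hh : Differentiable ℂ h) (hne : ∃ z, h z ≠ 0) (a : ℂ) :
    ∃ E : ℂ → ℂ, Differentiable ℂ E ∧ E a ≠ 0 ∧ ∀ z, h z = (z - a) ^ (D h a) * E z := by
  obtain ⟨g, hg, hga, hev⟩ := ((hh.analyticAt a).analyticOrderAt_ne_top).1 (order_ne_top hh hne a)
  classical
  set E : ℂ → ℂ := fun z => if z = a then g a else h z / (z - a) ^ (D h a) with hE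
  have hEeq : ∀ᶠ z in 𝓝 a, E z = g z := by
    filter_upwards [hev] with z hz
    rw [hE]
    simp only
    split_ifs with hza
    · rw [hza]
    · have : (z - a) ^ (D h a) ≠ 0 := pow_ne_zero _ (sub_ne_zero.2 hza)
      rw [hz, smul_eq_mul]
      field_simp [D]
      rw [mul_comm]
      rfl
  refine ⟨E, ?_, ?_, ?_⟩
  · intro z
    rcases eq_or_ne z a with hza | hza
    · rw [hza]
      have : E =ᶠ[𝓝 a] g := hEeq
      exact (hg.congr this.symm).differentiableAt
    · have : (fun z => h z / (z - a) ^ (D h a)) =ᶠ[𝓝 z] E := by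
        filter_upwards [isOpen_ne.mem_nhds hza] with w hw
        rw [hE]
        simp only
        rw [if_neg hw]
      refine DifferentiableAt.congr_of_eventuallyEq ?_ this.symm
      have h1 : (z - a) ^ (D h a) ≠ 0 := pow_ne_zero _ (sub_ne_zero.2 hza)
      exact (hh z).div (by fun_prop) h1
  · rw [hE]; simpa using hga
  · intro z
    rw [hE]
    simp only
    split_ifs with hza
    · have := hev.self_of_nhds
      rw [hza, this]
      rfl
    · have : (z - a) ^ (D h a) ≠ 0 := pow_ne_zero _ (sub_ne_zero.2 hza)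
      field_simp

theorem factor {h : ℂ → ℂ} (hh : Differentiable ℂ h) (hne : ∃ z, h z ≠ 0) (Z : Finset ℂ) :
    ∃ E : ℂ → ℂ, Differentiable ℂ E ∧ (∀ a ∈ Z, E a ≠ 0) ∧
      ∀ z, h z = (∏ a ∈ Z, (z - a) ^ (D h a)) * E z := by
  classical
  induction Z using Finset.induction_on with
  | empty => exact ⟨h, hh, by simp, by simp⟩
  | insert a Z ha ih =>
    obtain ⟨E, hE, hEne, hEeq⟩ := ih
    have hne' : ∃ z, E z ≠ 0 := by
      obtain ⟨z, hz⟩ := hne
      refine ⟨z, fun h0 => hz ?_⟩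
      rw [hEeq z, h0, mul_zero]
    obtain ⟨E', hE', hE'a, hE'eq⟩ := factor_one hE hne' a
    have hD : D h a = D E a := by
      rw [D, (hh.analyticAt a).analyticOrderNatAt_eq_iff (order_ne_top hh hne a)]
      refine ⟨fun z => (∏ b ∈ Z, (z - b) ^ (D h b)) * E' z, ?_, ?_, ?_⟩
      · have : Differentiable ℂ (fun z => (∏ b ∈ Z, (z - b) ^ (D h b)) * E' z) := by fun_prop
        exact this.analyticAt a
      · refine mul_ne_zero (Finset.prod_ne_zero_iff.2 (fun b hb => pow_ne_zero _ ?_)) hE'a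
        exact sub_ne_zero.2 (fun h => ha (h ▸ hb))
      · apply Eventually.of_forall
        intro z
        rw [hEeq z, hE'eq z, smul_eq_mul]
        ring
    refine ⟨E', hE', ?_, ?_⟩
    · intro b hb
      rcases Finset.mem_insert.1 hb with rfl | hb
      · exact hE'a
      · intro h0
        apply hEne b hb
        rw [hE'eq b, h0, mul_zero]
    · intro z
      rw [Finset.prod_insert ha, hEeq z, hE'eq z, hD]
      ring

theorem D_eq_zero {h : ℂ → ℂ} {a : ℂ} (ha : h a ≠ 0) : D h a = 0 := by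
  by_contra h0
  exact ha (apply_eq_zero_of_analyticOrderNatAt_ne_zero h0)

theorem D_ne_zero {h : ℂ → ℂ} (hh : Differentiable ℂ h) (hne : ∃ z, h z ≠ 0) {a : ℂ}
    (ha : h a = 0) : D h a ≠ 0 := by
  intro h0
  obtain ⟨E, -, hEa, hEq⟩ := factor_one hh hne a
  have := hEq a
  rw [h0, pow_zero, one_mul, ha] at this
  exact hEa this.symm

/-- the finite set of zeros in the closed disc of radius `R` -/
theorem finite_zeros {h : ℂ → ℂ} (hh : Differentiable ℂ h) (hne : ∃ z, h z ≠ 0) (R : ℝ) :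
    {a : ℂ | ‖a‖ ≤ R ∧ h a = 0}.Finite := by
  have h1 := (MeromorphicOn.divisor h (closedBall 0 R)).finiteSupport (isCompact_closedBall 0 R)
  apply h1.subset
  rintro a ⟨ha, h0⟩
  rw [Function.mem_support]
  have han : AnalyticOnNhd ℂ h (closedBall 0 R) := fun w _ => hh.analyticAt w
  have hmem : a ∈ closedBall (0 : ℂ) R := by simpa using ha
  rw [MeromorphicOn.AnalyticOnNhd.divisor_apply han hmem,
    ← Nat.cast_analyticOrderNatAt (order_ne_top hh hne a)]
  have := D_ne_zero hh hne h0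
  unfold D at this
  simpa using this


theorem factor_normalized {h : ℂ → ℂ} (hh : Differentiable ℂ h) (h0 : h 0 ≠ 0) (Z : Finset ℂ)
    (hZ : ∀ a ∈ Z, a ≠ 0) :
    ∃ E : ℂ → ℂ, Differentiable ℂ E ∧ (∀ a ∈ Z, E a ≠ 0) ∧
      ∀ z, h z = (∏ a ∈ Z, (1 - z / a) ^ (D h a)) * E z := by
  obtain ⟨E, hE, hEne, hEeq⟩ := factor hh ⟨0, h0⟩ Z
  refine ⟨fun z => (∏ a ∈ Z, (-a) ^ (D h a)) * E z, by fun_prop, ?_, ?_⟩
  · intro a ha
    refine mul_ne_zero (Finset.prod_ne_zero_iff.2 (fun b hb => pow_ne_zero _ ?_)) (hEne a ha)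
    exact neg_ne_zero.2 (hZ b hb)
  · intro z
    rw [hEeq z, ← mul_assoc, ← Finset.prod_mul_distrib]
    congr 1
    apply Finset.prod_congr rfl
    intro a ha
    have := hZ a ha
    rw [← mul_pow]
    congr 1
    field_simp
    ring

theorem E_bound {h E : ℂ → ℂ} (hE : Differentiable ℂ E) {Z : Finset ℂ}
    (hEeq : ∀ z, h z = (∏ a ∈ Z, (1 - z / a) ^ (D h a)) * E z) {c R M : ℝ} (hc : 1 ≤ c)
    (hR : 0 < R) (hZ : ∀ a ∈ Z, a ≠ 0 ∧ ‖a‖ ≤ R)
    (hM : ∀ z : ℂ, ‖z‖ = (c + 1) * R → ‖h z‖ ≤ M) :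
    ∀ z : ℂ, ‖z‖ ≤ (c + 1) * R → ‖E z‖ ≤ M / c ^ (∑ a ∈ Z, D h a) := by
  intro z hz
  have hcR : (c + 1) * R ≠ 0 := by positivity
  refine Complex.norm_le_of_forall_mem_frontier_norm_le (U := ball 0 ((c + 1) * R)) isBounded_ball
    hE.diffContOnCl ?_ ?_
  · intro w hw
    rw [frontier_ball _ hcR, mem_sphere_zero_iff_norm] at hw
    have h1 := hM w hw
    rw [le_div_iff₀ (by positivity)]
    refine le_trans ?_ h1
    rw [hEeq w, norm_mul, mul_comm]
    gcongr
    rw [norm_prod, ← Finset.prod_pow_eq_pow_sum]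
    apply Finset.prod_le_prod
    · intro a _; positivity
    · intro a ha
      rw [norm_pow]
      have hcpos : 0 ≤ c := by linarith
      apply pow_le_pow_left₀ hcpos
      obtain ⟨ha0, haR⟩ := hZ a ha
      have hapos : 0 < ‖a‖ := norm_pos_iff.2 ha0
      have h2 : ‖w / a‖ - 1 ≤ ‖1 - w / a‖ := by
        have := norm_sub_norm_le (w / a) 1
        rw [norm_one, norm_sub_rev] at this
        exact this
      refine le_trans ?_ h2
      rw [norm_div, hw]
      have h3 : (c + 1) ≤ (c + 1) * R / ‖a‖ := by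
        rw [le_div_iff₀ hapos]
        gcongr
      linarith
  · rw [closure_ball _ hcR]
    simpa using hz

/-- counting zeros -/
theorem count_le {h : ℂ → ℂ} (hh : Differentiable ℂ h) (h0 : h 0 ≠ 0) {r M : ℝ} (hr : 0 < r)
    (hM : ∀ z : ℂ, ‖z‖ = 3 * r → ‖h z‖ ≤ M) {Z : Finset ℂ} (hZ : ∀ a ∈ Z, ‖a‖ ≤ r) :
    (∑ a ∈ Z, (D h a : ℝ)) * Real.log 2 ≤ Real.log M - Real.log ‖h 0‖ := by
  classical
  set Z' := Z.filter (fun a => a ≠ 0) with hZ'
  have hsum : ∑ a ∈ Z, (D h a : ℝ) = ∑ a ∈ Z', (D h a : ℝ) := by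
    rw [hZ', Finset.sum_filter]
    apply Finset.sum_congr rfl
    intro a _
    split_ifs with ha
    · rfl
    · rw [not_not] at ha
      rw [ha, D_eq_zero h0]; simp
  rw [hsum]
  obtain ⟨E, hE, -, hEeq⟩ := factor_normalized hh h0 Z' (fun a ha => (Finset.mem_filter.1 ha).2)
  have hb := E_bound hE hEeq (c := 2) (R := r) (M := M) (by norm_num) hr
    (fun a ha => ⟨(Finset.mem_filter.1 ha).2, hZ a (Finset.mem_filter.1 ha).1⟩)
    (by intro z hz; exact hM z (by rw [hz]; ring)) 0 (by simp; positivity)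
  have hE0 : E 0 = h 0 := by
    rw [hEeq 0]; simp
  rw [hE0, le_div_iff₀ (by positivity)] at hb
  have hn : 0 < ‖h 0‖ := norm_pos_iff.2 h0
  have h2 := Real.log_le_log (by positivity) hb
  rw [Real.log_mul hn.ne' (by positivity), Real.log_pow] at h2
  push_cast at h2
  linarith

/-- zero-free functions -/
theorem zero_free_lower {G : ℂ → ℂ} (hG : Differentiable ℂ G) {R L : ℝ} (hR : 0 < R) (hL : 0 < L)
    (hne : ∀ z : ℂ, ‖z‖ < R → G z ≠ 0) (hb : ∀ z : ℂ, ‖z‖ < R → Real.log ‖G z‖ - Real.log ‖G 0‖ ≤ L)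
    {z : ℂ} (hz : ‖z‖ < R) :
    ‖G 0‖ * Real.exp (-(2 * L * ‖z‖ / (R - ‖z‖))) ≤ ‖G z‖ := by
  have hd : DifferentiableOn ℂ (fun w => deriv G w / G w) (ball 0 R) := by
    intro w hw
    have hw' : ‖w‖ < R := by simpa using hw
    have h1 : DifferentiableAt ℂ (deriv G) w := (hG.analyticAt w).deriv.differentiableAt
    exact (h1.div (hG w) (hne w hw')).differentiableWithinAt
  obtain ⟨g, hg0, hg⟩ := hd.isExactOn_ball.with_val_at 0 0
  have hc0 : ∀ w ∈ ball (0 : ℂ) R, G w * Complex.exp (- g w) = G 0 := by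
    intro w hw
    have hdw : ∀ w ∈ ball (0 : ℂ) R, HasDerivAt (fun w => G w * Complex.exp (- g w)) 0 w := by
      intro w hw
      have hw' : ‖w‖ < R := by simpa using hw
      have h1 := (hG w).hasDerivAt.mul ((hg w hw).neg.cexp)
      have h3 := hne w hw'
      have h4 : deriv G w * Complex.exp (-g w) +
          G w * (Complex.exp (-g w) * -(deriv G w / G w)) = 0 := by
        field_simp
        ring
      rw [← h4]
      exact h1
    have hconst := isOpen_ball.is_const_of_deriv_eq_zero (convex_ball (0:ℂ) R).isPreconnected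
      (f := fun w => G w * Complex.exp (- g w))
      (fun w hw => (hdw w hw).differentiableAt.differentiableWithinAt)
      (fun w hw => (hdw w hw).deriv) hw (mem_ball_self hR)
    rw [hconst, hg0]; simp
  have hG' : ∀ w ∈ ball (0 : ℂ) R, G w = G 0 * Complex.exp (g w) := by
    intro w hw
    rw [← hc0 w hw, mul_assoc, ← Complex.exp_add]; simp
  have hG0 : G 0 ≠ 0 := hne 0 (by simpa using hR)
  have hG0n : 0 < ‖G 0‖ := norm_pos_iff.2 hG0
  have hre : Set.MapsTo g (ball 0 R) {z | z.re ≤ L} := by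
    intro w hw
    have hw' : ‖w‖ < R := by simpa using hw
    have h1 := hb w hw'
    rw [hG' w hw, norm_mul, Complex.norm_exp, Real.log_mul hG0n.ne' (Real.exp_pos _).ne',
      Real.log_exp] at h1
    have : (g w).re ≤ L := by linarith
    exact this
  have hgd : DifferentiableOn ℂ g (ball 0 R) :=
    fun w hw => (hg w hw).differentiableAt.differentiableWithinAt
  have hzb : z ∈ ball (0 : ℂ) R := by simpa using hz
  have hbc := Complex.borelCaratheodory_zero hL hgd hre hR hzb hg0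
  rw [hG' z hzb, norm_mul, Complex.norm_exp]
  gcongr
  have := Complex.abs_re_le_norm (g z)
  have := neg_abs_le (g z).re
  linarith

end Pool.Agent.H9.Pf
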