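import Mathlib

set_option autoImplicit false
open MeasureTheory Filter Topology Metric Real

namespace Pool.Agent.H9.Pf

theorem circleAverage_eq_Ioo (φ : ℂ → ℝ) (c : ℂ) (s : ℝ) :
    ∫ θ in Set.Ioo (-π) π, φ (circleMap c s θ) = 2 * π * circleAverage φ c s := by
  rw [circleAverage_def, smul_eq_mul, ← mul_assoc, mul_inv_cancel₀ (by positivity), one_mul,
    ← integral_Ioc_eq_integral_Ioo, ← intervalIntegral.integral_of_le (by linarith [pi_pos])]
  have hp : Function.Periodic (fun θ => φ (circleMap c s θ)) (2 * π) := by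
    intro θ
    simp only
    rw [periodic_circleMap c s θ]
  have := hp.intervalIntegral_add_eq (-π) 0
  rw [zero_add] at this
  rw [← this]
  congr 1; ring

theorem integral_ball (φ : ℂ → ℝ) (hφ : Continuous φ) (c : ℂ) (S : ℝ) :
    ∫ z in closedBall c S, φ z = ∫ s in Set.Ioc (0 : ℝ) S, s * (2 * π * circleAverage φ c s) := by
  rw [← integral_indicator measurableSet_closedBall]
  rw [← integral_add_left_eq_self _ c]
  rw [← Complex.integral_comp_polarCoord_symm]
  have e1 : ∀ p ∈ polarCoord.target,
      p.1 • (closedBall c S).indicator φ (c + Complex.polarCoord.symm p) =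
      (Set.Ioc (0 : ℝ) S ×ˢ Set.Ioo (-π) π).indicator (fun p => p.1 * φ (circleMap c p.1 p.2)) p := by
    intro p hp
    rw [polarCoord_target] at hp
    have hp1 : 0 < p.1 := hp.1
    have hc : c + Complex.polarCoord.symm p = circleMap c p.1 p.2 := by
      rw [Complex.polarCoord_symm_apply, circleMap, Complex.exp_mul_I]
      push_cast; ring
    rw [hc]
    by_cases h : p.1 ≤ S
    · have h1 : circleMap c p.1 p.2 ∈ closedBall c S := by
        rw [mem_closedBall, dist_eq_norm, circleMap_sub_center, norm_circleMap_zero, abs_of_pos hp1]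
        exact h
      have h2 : p ∈ Set.Ioc (0 : ℝ) S ×ˢ Set.Ioo (-π) π := ⟨⟨hp1, h⟩, hp.2⟩
      rw [Set.indicator_of_mem h1, Set.indicator_of_mem h2, smul_eq_mul]
    · have h1 : circleMap c p.1 p.2 ∉ closedBall c S := by
        rw [mem_closedBall, dist_eq_norm, circleMap_sub_center, norm_circleMap_zero, abs_of_pos hp1]
        exact h
      have h2 : p ∉ Set.Ioc (0 : ℝ) S ×ˢ Set.Ioo (-π) π := fun h' => h h'.1.2
      rw [Set.indicator_of_notMem h1, Set.indicator_of_notMem h2, smul_zero]
  rw [setIntegral_congr_fun polarCoord.open_target.measurableSet e1,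
    setIntegral_indicator (measurableSet_Ioc.prod measurableSet_Ioo)]
  have e2 : polarCoord.target ∩ Set.Ioc (0 : ℝ) S ×ˢ Set.Ioo (-π) π =
      Set.Ioc (0 : ℝ) S ×ˢ Set.Ioo (-π) π := by
    rw [polarCoord_target]
    apply Set.inter_eq_right.2
    rintro p ⟨⟨h1, -⟩, h2⟩
    exact ⟨h1, h2⟩
  rw [e2, Measure.volume_eq_prod, setIntegral_prod]
  · apply setIntegral_congr_fun measurableSet_Ioc
    intro s _
    simp only
    rw [integral_const_mul, circleAverage_eq_Ioo]
  · have hc : Continuous (fun p : ℝ × ℝ => p.1 * φ (circleMap c p.1 p.2)) := by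
      unfold circleMap
      fun_prop
    have hk : IsCompact (Set.Icc (0 : ℝ) S ×ˢ Set.Icc (-π) π) := isCompact_Icc.prod isCompact_Icc
    rw [← Measure.volume_eq_prod]
    exact (hc.continuousOn.integrableOn_compact hk).mono_set
      (Set.prod_mono Set.Ioc_subset_Icc_self Set.Ioo_subset_Icc_self)


theorem continuous_circleAverage {φ : ℂ → ℝ} (hφ : Continuous φ) (c : ℂ) :
    Continuous (fun s : ℝ => circleAverage φ c s) := by
  simp only [circleAverage_def, smul_eq_mul]
  apply Continuous.mul continuous_const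
  apply intervalIntegral.continuous_parametric_intervalIntegral_of_continuous'
  unfold circleMap
  fun_prop

theorem continuous_posLog_norm {h : ℂ → ℂ} (hh : Continuous h) :
    Continuous (fun z => log⁺ ‖h z‖) := continuous_posLog.comp hh.norm

theorem posLog_le_circleAverage {h : ℂ → ℂ} (hh : Differentiable ℂ h) (z : ℂ) {s : ℝ} (hs : 0 < s) :
    log⁺ ‖h z‖ ≤ circleAverage (fun w => log⁺ ‖h w‖) z s := by
  have hc := continuous_posLog_norm hh.continuous
  have hci : CircleIntegrable (fun w => log⁺ ‖h w‖) z s := hc.continuousOn.circleIntegrable'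
  have h0 : 0 ≤ circleAverage (fun w => log⁺ ‖h w‖) z s :=
    circleAverage_nonneg_of_nonneg (fun w _ => posLog_nonneg)
  rcases eq_or_ne (h z) 0 with hz | hz
  · rw [hz, norm_zero]; simpa using h0
  have han : AnalyticOnNhd ℂ h (closedBall z |s|) := fun w _ => hh.analyticAt w
  have hj := han.circleAverage_log_norm hs.ne' hz
  have hle : Real.log ‖h z‖ ≤ circleAverage (Real.log ‖h ·‖) z s := by
    rw [hj]
    have : 0 ≤ ∑ᶠ u, (MeromorphicOn.divisor h (closedBall z |s|) u : ℝ) * Real.log (s * ‖z - u‖⁻¹) := by
      apply finsum_nonneg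
      intro u
      by_cases hu : u ∈ closedBall z |s|
      · apply mul_nonneg
        · exact_mod_cast (MeromorphicOn.AnalyticOnNhd.divisor_nonneg han) u
        · rcases eq_or_ne z u with h' | h'
          · rw [h']; simp
          · apply Real.log_nonneg
            have h1 : 0 < ‖z - u‖ := norm_pos_iff.2 (sub_ne_zero.2 h')
            rw [mem_closedBall, dist_comm, dist_eq_norm, abs_of_pos hs] at hu
            rw [← div_eq_mul_inv, le_div_iff₀ h1]
            linarith
      · rw [Function.locallyFinsuppWithin.apply_eq_zero_of_notMem _ hu]; simp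
    linarith
  have hle2 : circleAverage (Real.log ‖h ·‖) z s ≤ circleAverage (fun w => log⁺ ‖h w‖) z s := by
    apply circleAverage_mono
    · exact (han.mono (by rw [abs_of_pos hs]; exact sphere_subset_closedBall)).meromorphicOn.circleIntegrable_log_norm
    · exact hci
    · intro w _
      exact le_max_right 0 _
  rw [posLog_def]
  exact max_le h0 (hle.trans hle2)

/-- the Nevanlinna characteristic of an entire function -/
noncomputable def T (h : ℂ → ℂ) (r : ℝ) : ℝ := circleAverage (fun w => log⁺ ‖h w‖) 0 r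

theorem T_eq {h : ℂ → ℂ} (hh : Differentiable ℂ h) (r : ℝ) :
    ValueDistribution.characteristic h ⊤ r = T h r := by
  have h1 : ValueDistribution.logCounting h ⊤ = 0 := by
    rw [ValueDistribution.logCounting_top]
    have : (MeromorphicOn.divisor h Set.univ)⁻ = 0 := by
      rw [negPart_eq_zero]
      exact MeromorphicOn.AnalyticOnNhd.divisor_nonneg (fun w _ => hh.analyticAt w)
    rw [this]
    simp
  rw [ValueDistribution.characteristic, h1, add_zero, ValueDistribution.proximity_top]
  rfl

theorem T_nonneg (h : ℂ → ℂ) (r : ℝ) : 0 ≤ T h r :=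
  circleAverage_nonneg_of_nonneg (fun w _ => posLog_nonneg)

theorem T_mono {h : ℂ → ℂ} (hh : Differentiable ℂ h) {a b : ℝ} (ha : 0 < a) (hab : a ≤ b) :
    T h a ≤ T h b := by
  rw [← T_eq hh, ← T_eq hh]
  exact ValueDistribution.characteristic_monotoneOn
    (fun z => (hh.analyticAt z).meromorphicAt) ha (ha.trans_le hab) hab

theorem growth {h : ℂ → ℂ} (hh : Differentiable ℂ h) {z : ℂ} (hz : z ≠ 0) :
    log⁺ ‖h z‖ ≤ 4 * T h (2 * ‖z‖) := by
  have hpos : 0 < ‖z‖ := norm_pos_iff.2 hz
  have hφ := continuous_posLog_norm hh.continuous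
  set φ := fun w => log⁺ ‖h w‖ with hφd
  set S := ‖z‖ with hS
  have i1 : ∫ s in Set.Ioc (0 : ℝ) S, s * (2 * π * φ z) ≤ ∫ w in closedBall z S, φ w := by
    rw [integral_ball φ hφ]
    apply setIntegral_mono_on
    · exact (Continuous.integrableOn_Icc (by fun_prop)).mono_set Set.Ioc_subset_Icc_self
    · have := continuous_circleAverage hφ z
      exact (Continuous.integrableOn_Icc (by fun_prop)).mono_set Set.Ioc_subset_Icc_self
    · exact measurableSet_Ioc
    · intro s hs
      have := posLog_le_circleAverage hh z hs.1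
      have h2 := hs.1
      have := pi_pos
      gcongr
  have i2 : ∫ w in closedBall z S, φ w ≤ ∫ w in closedBall 0 (2 * S), φ w := by
    apply setIntegral_mono_set
    · exact hφ.continuousOn.integrableOn_compact (isCompact_closedBall _ _)
    · exact Eventually.of_forall (fun w => posLog_nonneg)
    · apply LE.le.eventuallyLE
      apply closedBall_subset_closedBall'
      rw [dist_zero_right]; linarith
  have i3 : ∫ w in closedBall 0 (2 * S), φ w ≤
      ∫ s in Set.Ioc (0 : ℝ) (2 * S), s * (2 * π * T h (2 * S)) := by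
    rw [integral_ball φ hφ]
    apply setIntegral_mono_on
    · have := continuous_circleAverage hφ 0
      exact (Continuous.integrableOn_Icc (by fun_prop)).mono_set Set.Ioc_subset_Icc_self
    · exact (Continuous.integrableOn_Icc (by fun_prop)).mono_set Set.Ioc_subset_Icc_self
    · exact measurableSet_Ioc
    · intro s hs
      have h2 := hs.1
      have h3 : circleAverage φ 0 s ≤ T h (2 * S) := T_mono hh hs.1 hs.2
      have := pi_pos
      gcongr
  have c : ∀ (S : ℝ) (hS : 0 ≤ S) (K : ℝ), ∫ s in Set.Ioc (0 : ℝ) S, s * K = S ^ 2 / 2 * K := by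
    intro S hS K
    rw [integral_mul_const, ← intervalIntegral.integral_of_le hS, integral_id]
    ring
  rw [c S hpos.le] at i1
  rw [c (2 * S) (by linarith)] at i3
  have h4 := (i1.trans i2).trans i3
  have h5 : S ^ 2 * π * φ z ≤ S ^ 2 * π * (4 * T h (2 * S)) := by nlinarith
  exact le_of_mul_le_mul_left h5 (by positivity)

end Pool.Agent.H9.Pf
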