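import Mathlib

set_option autoImplicit false
open MeasureTheory Filter Topology Metric Real

namespace Pool.Agent.H9.Pf

/-- dyadic summation -/
theorem summable_dyadic {D : ℂ → ℕ} {δ σ τ C : ℝ} (hδ : 0 < δ) (hσ : 0 ≤ σ) (hτ : σ < τ)
    (hC : 0 ≤ C) (hDδ : ∀ a, D a ≠ 0 → δ ≤ ‖a‖)
    (hcount : ∀ r : ℝ, 1 ≤ r → ∀ Z : Finset ℂ, (∀ a ∈ Z, ‖a‖ ≤ r) → ∑ a ∈ Z, (D a : ℝ) ≤ C * r ^ σ) :
    Summable (fun a => (D a : ℝ) * ‖a‖ ^ (-τ)) := by
  classical
  have hτ0 : 0 < τ := hσ.trans_lt hτ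
  set c0 : ℝ := max (δ ^ (-τ)) (2 ^ τ) with hc0
  have hc0pos : 0 < c0 := lt_max_of_lt_right (by positivity)
  set q : ℝ := 2 ^ (σ - τ) with hq
  have hq0 : 0 < q := by positivity
  have hq1 : q < 1 := Real.rpow_lt_one_of_one_lt_of_neg (by norm_num) (by linarith)
  apply summable_of_sum_le (c := c0 * C * (1 - q)⁻¹)
  · intro a; positivity
  intro F
  obtain ⟨J, hJ⟩ : ∃ J : ℕ, ∀ a ∈ F, ‖a‖ ≤ 2 ^ J := by
    obtain ⟨M, hM⟩ := (F.finite_toSet.image norm).bddAbove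
    obtain ⟨J, hJ⟩ := pow_unbounded_of_one_lt M (by norm_num : (1 : ℝ) < 2)
    exact ⟨J, fun a ha => (hM ⟨a, ha, rfl⟩).trans hJ.le⟩
  have key : ∀ a ∈ F, (D a : ℝ) * ‖a‖ ^ (-τ) ≤
      c0 * ∑ j ∈ Finset.range (J + 1), (if ‖a‖ ≤ 2 ^ j then (D a : ℝ) else 0) * ((2 : ℝ) ^ j) ^ (-τ) := by
    intro a ha
    rcases Nat.eq_zero_or_pos (D a) with h0 | h0
    · rw [h0]; simp
    have hδa := hDδ a h0.ne'
    have hex : ∃ j : ℕ, ‖a‖ ≤ 2 ^ j := ⟨J, hJ a ha⟩
    set j := Nat.find hex with hj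
    have hj1 : ‖a‖ ≤ 2 ^ j := Nat.find_spec hex
    have hjJ : j ≤ J := Nat.find_min' hex (hJ a ha)
    have hterm : ‖a‖ ^ (-τ) ≤ c0 * ((2 : ℝ) ^ j) ^ (-τ) := by
      rcases Nat.eq_zero_or_pos j with hj0 | hj0
      · rw [hj0, pow_zero, Real.one_rpow, mul_one]
        refine le_trans ?_ (le_max_left _ _)
        exact Real.rpow_le_rpow_of_nonpos hδ hδa (by linarith)
      · have h2 : (2 : ℝ) ^ (j - 1) < ‖a‖ := by
          have := Nat.find_min hex (m := j - 1) (by omega)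
          exact not_le.1 this
        have h3 : ‖a‖ ^ (-τ) ≤ ((2 : ℝ) ^ (j - 1)) ^ (-τ) :=
          Real.rpow_le_rpow_of_nonpos (by positivity) h2.le (by linarith)
        refine h3.trans ?_
        have e : (2 : ℝ) ^ (j - 1) = 2 ^ j * 2⁻¹ := by
          have : (2 : ℝ) ^ j = 2 ^ (j - 1) * 2 := by
            rw [← pow_succ]; congr 1; omega
          rw [this]; ring
        rw [e, Real.mul_rpow (by positivity) (by positivity), mul_comm]
        have e2 : ((2 : ℝ)⁻¹) ^ (-τ) = 2 ^ τ := by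
          rw [Real.inv_rpow (by norm_num), Real.rpow_neg (by norm_num), inv_inv]
        rw [e2]
        gcongr
        exact le_max_right _ _
    have hsingle : (D a : ℝ) * ((2 : ℝ) ^ j) ^ (-τ) ≤
        ∑ j ∈ Finset.range (J + 1), (if ‖a‖ ≤ 2 ^ j then (D a : ℝ) else 0) * ((2 : ℝ) ^ j) ^ (-τ) := by
      have h := Finset.single_le_sum (f := fun j : ℕ =>
        (if ‖a‖ ≤ 2 ^ j then (D a : ℝ) else 0) * ((2 : ℝ) ^ j) ^ (-τ)) (s := Finset.range (J + 1))
        (fun i _ => by positivity) (Finset.mem_range.2 (by omega : j < J + 1))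
      rw [if_pos hj1] at h
      exact h
    calc (D a : ℝ) * ‖a‖ ^ (-τ) ≤ (D a : ℝ) * (c0 * ((2 : ℝ) ^ j) ^ (-τ)) := by gcongr
      _ = c0 * ((D a : ℝ) * ((2 : ℝ) ^ j) ^ (-τ)) := by ring
      _ ≤ _ := by gcongr
  calc ∑ a ∈ F, (D a : ℝ) * ‖a‖ ^ (-τ)
      ≤ ∑ a ∈ F, c0 * ∑ j ∈ Finset.range (J + 1),
          (if ‖a‖ ≤ 2 ^ j then (D a : ℝ) else 0) * ((2 : ℝ) ^ j) ^ (-τ) := Finset.sum_le_sum key
    _ = c0 * ∑ j ∈ Finset.range (J + 1), (∑ a ∈ F with ‖a‖ ≤ 2 ^ j, (D a : ℝ)) * ((2 : ℝ) ^ j) ^ (-τ) := by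
        rw [← Finset.mul_sum, Finset.sum_comm]
        congr 1
        apply Finset.sum_congr rfl
        intro j _
        rw [← Finset.sum_mul, Finset.sum_filter]
    _ ≤ c0 * ∑ j ∈ Finset.range (J + 1), C * q ^ j := by
        refine mul_le_mul_of_nonneg_left (Finset.sum_le_sum fun j _ => ?_) hc0pos.le
        have h1 := hcount (2 ^ j) (one_le_pow₀ (by norm_num)) (F.filter (fun a => ‖a‖ ≤ 2 ^ j))
          (fun a ha => (Finset.mem_filter.1 ha).2)
        have h2 : C * q ^ j = C * ((2 : ℝ) ^ j) ^ σ * ((2 : ℝ) ^ j) ^ (-τ) := by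
          rw [mul_assoc, ← Real.rpow_add (by positivity), hq, ← Real.rpow_natCast,
            ← Real.rpow_natCast, ← Real.rpow_mul (by norm_num), ← Real.rpow_mul (by norm_num)]
          congr 2
          ring
        rw [h2]
        gcongr
    _ = c0 * C * ∑ j ∈ Finset.range (J + 1), q ^ j := by
        rw [← Finset.mul_sum]; ring
    _ ≤ c0 * C * (1 - q)⁻¹ := by
        gcongr
        have := Summable.sum_le_tsum (f := fun j : ℕ => q ^ j) (Finset.range (J + 1))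
          (fun i _ => by positivity) (summable_geometric_of_lt_one hq0.le hq1)
        rwa [tsum_geometric_of_lt_one hq0.le hq1] at this



theorem norm_pow_sub_one_le (n : ℕ) (w : ℂ) :
    ‖(1 + w) ^ n - 1‖ ≤ n * ‖w‖ * Real.exp (n * ‖w‖) := by
  have h1 := Finset.norm_prod_one_add_sub_one_le (Finset.range n) (fun _ => w)
  rw [Finset.prod_const, Finset.card_range, Finset.sum_const, Finset.card_range, nsmul_eq_mul] at h1
  refine h1.trans ?_
  have h2 := Real.add_one_le_exp (-((n : ℝ) * ‖w‖))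
  have h3 := Real.exp_pos ((n : ℝ) * ‖w‖)
  have h4 : Real.exp (-((n : ℝ) * ‖w‖)) * Real.exp ((n : ℝ) * ‖w‖) = 1 := by
    rw [← Real.exp_add]; simp
  nlinarith [mul_le_mul_of_nonneg_right h2 h3.le]

/-- the product with all zeros turned to the negative real axis, as an infinite product -/
noncomputable def HH (D : ℂ → ℕ) (z : ℂ) : ℂ := ∏' a : ℂ, (1 + ((1 + z / (‖a‖ : ℂ)) ^ (D a) - 1))

theorem hasProd_HH {D : ℂ → ℕ} (hs : Summable (fun a => (D a : ℝ) * ‖a‖⁻¹)) (R : ℝ) :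
    HasProdLocallyUniformlyOn (fun (a : ℂ) (z : ℂ) => 1 + ((1 + z / (‖a‖ : ℂ)) ^ (D a) - 1)) (HH D)
      (ball 0 R) := by
  rcases le_or_gt R 0 with hR | hR
  · rw [ball_eq_empty.2 hR]
    intro u _ x hx
    exact hx.elim
  set S := ∑' a : ℂ, (D a : ℝ) * ‖a‖⁻¹ with hS
  refine Summable.hasProdLocallyUniformlyOn_one_add isOpen_ball
    (u := fun a => (D a : ℝ) * ‖a‖⁻¹ * (R * Real.exp (R * S))) (hs.mul_right _) ?_ ?_
  · refine Eventually.of_forall fun a z hz => ?_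
    have hz' : ‖z‖ < R := by simpa using hz
    refine (norm_pow_sub_one_le _ _).trans ?_
    have e : ‖z / (‖a‖ : ℂ)‖ = ‖z‖ * ‖a‖⁻¹ := by
      rw [norm_div, Complex.norm_real, norm_norm, div_eq_mul_inv]
    rw [e]
    have hle : (D a : ℝ) * ‖a‖⁻¹ ≤ S := hs.le_tsum a (fun b _ => by positivity)
    have h1 : (D a : ℝ) * (‖z‖ * ‖a‖⁻¹) = (D a : ℝ) * ‖a‖⁻¹ * ‖z‖ := by ring
    rw [h1, mul_assoc ((D a : ℝ) * ‖a‖⁻¹)]
    have h0 : 0 ≤ (D a : ℝ) * ‖a‖⁻¹ := by positivity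
    apply mul_le_mul_of_nonneg_left _ h0
    have h3 : (D a : ℝ) * ‖a‖⁻¹ * ‖z‖ ≤ R * S := by
      rw [mul_comm]
      exact mul_le_mul hz'.le hle h0 hR.le
    gcongr
  · intro a
    exact Continuous.continuousOn (by fun_prop)

theorem HH_tendsto {D : ℂ → ℕ} (hs : Summable (fun a => (D a : ℝ) * ‖a‖⁻¹)) (z : ℂ) :
    Tendsto (fun F : Finset ℂ => ∏ a ∈ F, (1 + z / (‖a‖ : ℂ)) ^ (D a)) atTop (𝓝 (HH D z)) := by
  have h := (hasProd_HH hs (‖z‖ + 1)).hasProd (x := z) (by simp)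
  simp only [HasProd, SummationFilter.unconditional_filter] at h
  refine h.congr (fun F => ?_)
  apply Finset.prod_congr rfl
  intro a _
  ring

theorem HH_differentiable {D : ℂ → ℕ} (hs : Summable (fun a => (D a : ℝ) * ‖a‖⁻¹)) :
    Differentiable ℂ (HH D) := by
  intro z
  have h := (hasProd_HH hs (‖z‖ + 1)).differentiableOn
    (.of_forall fun F => by
      simpa [Finset.prod_fn] using DifferentiableOn.finsetProd (fun _ _ => by fun_prop)) isOpen_ball
  exact (h z (by simp)).differentiableAt (isOpen_ball.mem_nhds (by simp))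

theorem log_one_add_le {τ x : ℝ} (hτ : 0 < τ) (hτ1 : τ ≤ 1) (hx : 0 ≤ x) :
    Real.log (1 + x) ≤ 2 / τ * x ^ τ := by
  have hp : 0 ≤ x ^ τ := by positivity
  rcases le_or_gt x 1 with h | h
  · have h1 : Real.log (1 + x) ≤ x := by
      have := Real.log_le_sub_one_of_pos (show 0 < 1 + x by linarith)
      linarith
    have h2 : x ≤ x ^ τ := by
      rcases hx.eq_or_lt with h0 | h0
      · rw [← h0]; positivity
      · have := Real.rpow_le_rpow_of_exponent_ge h0 h hτ1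
        rwa [Real.rpow_one] at this
    have h3 : 1 ≤ 2 / τ := by rw [le_div_iff₀ hτ]; linarith
    nlinarith
  · have h1 : Real.log (1 + x) ≤ (1 + x) ^ τ / τ := Real.log_le_rpow_div (by linarith) hτ
    have h2 : (1 + x) ^ τ ≤ 2 * x ^ τ := by
      calc (1 + x) ^ τ ≤ (2 * x) ^ τ := by
            apply Real.rpow_le_rpow (by linarith) (by linarith) hτ.le
        _ = 2 ^ τ * x ^ τ := Real.mul_rpow (by norm_num) hx
        _ ≤ 2 ^ (1 : ℝ) * x ^ τ := by
            gcongr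
            norm_num
        _ = 2 * x ^ τ := by rw [Real.rpow_one]
    calc Real.log (1 + x) ≤ (1 + x) ^ τ / τ := h1
      _ ≤ 2 * x ^ τ / τ := by gcongr
      _ = 2 / τ * x ^ τ := by ring

theorem HH_growth {D : ℂ → ℕ} {τ : ℝ} (hτ : 0 < τ) (hτ1 : τ ≤ 1)
    (hs : Summable (fun a => (D a : ℝ) * ‖a‖⁻¹)) (hs' : Summable (fun a => (D a : ℝ) * ‖a‖ ^ (-τ))) :
    ∃ B : ℝ, 0 ≤ B ∧ ∀ z, ‖HH D z‖ ≤ Real.exp (B * ‖z‖ ^ τ) := by
  refine ⟨2 / τ * ∑' a : ℂ, (D a : ℝ) * ‖a‖ ^ (-τ), ?_, ?_⟩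
  · apply mul_nonneg (by positivity)
    exact tsum_nonneg (fun a => by positivity)
  intro z
  have ht := (HH_tendsto hs z).norm
  refine le_of_tendsto ht (Eventually.of_forall fun F => ?_)
  rw [norm_prod]
  calc ∏ a ∈ F, ‖(1 + z / (‖a‖ : ℂ)) ^ (D a)‖
      ≤ ∏ a ∈ F, Real.exp ((D a : ℝ) * ‖a‖ ^ (-τ) * (2 / τ * ‖z‖ ^ τ)) := by
        apply Finset.prod_le_prod (fun a _ => norm_nonneg _)
        intro a _
        rw [norm_pow]
        have h1 : ‖1 + z / (‖a‖ : ℂ)‖ ≤ 1 + ‖z‖ / ‖a‖ := by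
          refine (norm_add_le _ _).trans ?_
          rw [norm_one, norm_div, Complex.norm_real, norm_norm]
        have h2 : 1 + ‖z‖ / ‖a‖ ≤ Real.exp (2 / τ * (‖z‖ / ‖a‖) ^ τ) := by
          rw [← Real.log_le_iff_le_exp (by positivity)]
          exact log_one_add_le hτ hτ1 (by positivity)
        calc ‖1 + z / (‖a‖ : ℂ)‖ ^ (D a) ≤ (Real.exp (2 / τ * (‖z‖ / ‖a‖) ^ τ)) ^ (D a) :=
              pow_le_pow_left₀ (norm_nonneg _) (h1.trans h2) _
          _ = Real.exp ((D a : ℝ) * ‖a‖ ^ (-τ) * (2 / τ * ‖z‖ ^ τ)) := by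
              rw [← Real.exp_nat_mul]
              congr 1
              rw [Real.div_rpow (norm_nonneg _) (norm_nonneg _), Real.rpow_neg (norm_nonneg _)]
              ring
    _ = Real.exp (∑ a ∈ F, (D a : ℝ) * ‖a‖ ^ (-τ) * (2 / τ * ‖z‖ ^ τ)) := by rw [Real.exp_sum]
    _ ≤ Real.exp (2 / τ * (∑' a : ℂ, (D a : ℝ) * ‖a‖ ^ (-τ)) * ‖z‖ ^ τ) := by
        apply Real.exp_le_exp.2
        rw [← Finset.sum_mul]
        have h3 := hs'.sum_le_tsum F (fun a _ => by positivity)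
        have h4 : 0 ≤ 2 / τ * ‖z‖ ^ τ := by positivity
        nlinarith [mul_le_mul_of_nonneg_right h3 h4]

theorem HH_pos {D : ℂ → ℕ} (hs : Summable (fun a => (D a : ℝ) * ‖a‖⁻¹)) {a0 : ℂ} (ha0 : D a0 ≠ 0)
    {x : ℝ} (hx : 0 ≤ x) : 1 + x / ‖a0‖ ≤ ‖HH D (x : ℂ)‖ := by
  have ht := (HH_tendsto hs (x : ℂ)).norm
  refine ge_of_tendsto ht ?_
  filter_upwards [eventually_ge_atTop {a0}] with F hF
  have hmem : a0 ∈ F := hF (Finset.mem_singleton_self a0)
  have hfac : ∀ a : ℂ, ‖(1 + (x : ℂ) / (‖a‖ : ℂ)) ^ (D a)‖ = (1 + x / ‖a‖) ^ (D a) := by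
    intro a
    rw [norm_pow]
    have : (1 + (x : ℂ) / (‖a‖ : ℂ)) = ((1 + x / ‖a‖ : ℝ) : ℂ) := by push_cast; ring
    rw [this, Complex.norm_real, Real.norm_eq_abs, abs_of_nonneg (by positivity)]
  have h1 : ∀ a : ℂ, 1 ≤ (1 + x / ‖a‖) ^ (D a) := fun a =>
    one_le_pow₀ (by have : 0 ≤ x / ‖a‖ := by positivity
                    linarith)
  rw [norm_prod, Finset.prod_congr rfl (fun a _ => hfac a)]
  calc 1 + x / ‖a0‖ = (1 + x / ‖a0‖) ^ 1 := (pow_one _).symm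
    _ ≤ (1 + x / ‖a0‖) ^ (D a0) := by
        apply pow_le_pow_right₀ _ (Nat.one_le_iff_ne_zero.2 ha0)
        have : 0 ≤ x / ‖a0‖ := by positivity
        linarith
    _ ≤ ∏ a ∈ F, (1 + x / ‖a‖) ^ (D a) := by
        classical
        rw [← Finset.mul_prod_erase F _ hmem]
        apply le_mul_of_one_le_right (by positivity)
        have h2 := Finset.prod_le_prod (s := F.erase a0) (f := fun _ => (1 : ℝ))
          (g := fun a : ℂ => (1 + x / ‖a‖) ^ (D a)) (fun _ _ => zero_le_one) (fun a _ => h1 a)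
        rwa [Finset.prod_const_one] at h2

/-- Wiman: the function is unbounded on the negative real axis -/
theorem HH_neg_unbounded {D : ℂ → ℕ} {τ : ℝ} (hτ : 0 < τ) (hτ1 : τ < 1 / 2)
    (hs : Summable (fun a => (D a : ℝ) * ‖a‖⁻¹)) (hs' : Summable (fun a => (D a : ℝ) * ‖a‖ ^ (-τ)))
    {a0 : ℂ} (ha0 : D a0 ≠ 0) (h00 : a0 ≠ 0) (A R0 : ℝ) : ∃ r : ℝ, R0 ≤ r ∧ A < ‖HH D (-(r : ℂ))‖ := by
  by_contra hcon
  push Not at hcon
  have hd := HH_differentiable hs
  obtain ⟨B, hB0, hB⟩ := HH_growth hτ (by linarith) hs hs'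
  obtain ⟨C, hC⟩ : ∃ C : ℝ, ∀ r : ℝ, 0 ≤ r → ‖HH D (-(r : ℂ))‖ ≤ C := by
    have hc : ContinuousOn (fun r : ℝ => ‖HH D (-(r : ℂ))‖) (Set.Icc 0 (max R0 0)) := by
      apply Continuous.continuousOn
      exact (hd.continuous.comp (by fun_prop)).norm
    obtain ⟨C, hC⟩ := (isCompact_Icc.bddAbove_image hc)
    refine ⟨max C A, fun r hr => ?_⟩
    rcases le_or_gt R0 r with h | h
    · exact (hcon r h).trans (le_max_right _ _)
    · exact (hC ⟨r, ⟨hr, h.le.trans (le_max_left _ _)⟩, rfl⟩).trans (le_max_left _ _)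
  have key : ∀ z : ℂ, -π ≤ z.im → z.im ≤ π → ‖HH D (Complex.exp z)‖ ≤ C := by
    intro z hz1 hz2
    refine PhragmenLindelof.horizontal_strip (f := fun z => HH D (Complex.exp z)) (a := -π) (b := π)
      (C := C) ?_ ?_ ?_ ?_ hz1 hz2
    · exact (hd.comp Complex.differentiable_exp).diffContOnCl
    · refine ⟨τ, ?_, B, ?_⟩
      · have := pi_pos
        rw [lt_div_iff₀ (by linarith)]
        nlinarith
      · apply Asymptotics.IsBigO.of_bound 1
        refine Eventually.of_forall fun z => ?_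
        rw [one_mul, Real.norm_eq_abs, abs_of_pos (Real.exp_pos _)]
        refine (hB _).trans ?_
        apply Real.exp_le_exp.2
        gcongr
        rw [Complex.norm_exp, ← Real.exp_mul]
        apply Real.exp_le_exp.2
        rw [mul_comm]
        gcongr
        exact le_abs_self _
    · intro z hz
      have : Complex.exp z = -((Real.exp z.re : ℝ) : ℂ) := by
        conv_lhs => rw [← Complex.re_add_im z, hz]
        rw [Complex.exp_add]
        push_cast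
        rw [neg_mul, Complex.exp_neg, Complex.exp_pi_mul_I]
        norm_num
      rw [this]
      exact hC _ (Real.exp_pos _).le
    · intro z hz
      have : Complex.exp z = -((Real.exp z.re : ℝ) : ℂ) := by
        conv_lhs => rw [← Complex.re_add_im z, hz]
        rw [Complex.exp_add, Complex.exp_pi_mul_I]
        push_cast
        ring
      rw [this]
      exact hC _ (Real.exp_pos _).le
  have hpos : 0 < ‖a0‖ := norm_pos_iff.2 h00
  have hCx : ∀ x : ℝ, 0 < x → 1 + x / ‖a0‖ ≤ C := by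
    intro x hx
    refine (HH_pos hs ha0 hx.le).trans ?_
    have h := key (Real.log x : ℝ) (by simp [pi_pos.le]) (by simp [pi_pos.le])
    rwa [← Complex.ofReal_exp, Real.exp_log hx] at h
  have h1 := hCx ((|C| + 1) * ‖a0‖) (by positivity)
  rw [mul_div_cancel_right₀ _ hpos.ne'] at h1
  have := le_abs_self C
  linarith

end Pool.Agent.H9.Pf
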