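import Mathlib
import Pool.Agent.H9.Pf.Growth
import Pool.Agent.H9.Pf.Factor
import Pool.Agent.H9.Pf.Product

set_option autoImplicit false
open MeasureTheory Filter Topology Metric Real

namespace Pool.Agent.H9.Pf

theorem E_lower {C σ c0 : ℝ} (hσ0 : 0 ≤ σ) (hσ1 : σ < 1) (hC : 0 ≤ C) (hc0 : 0 < c0) {r : ℝ}
    (hr : 0 ≤ r) : ∃ R1 : ℝ, ∀ R, R1 ≤ R → ∀ E : ℂ → ℂ, Differentiable ℂ E →
      (∀ z : ℂ, ‖z‖ < R → E z ≠ 0) → (∀ z : ℂ, ‖z‖ < R → ‖E z‖ ≤ Real.exp (C * (2 * R) ^ σ)) →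
      ‖E 0‖ = c0 → ∀ z : ℂ, ‖z‖ ≤ r → c0 / 2 ≤ ‖E z‖ := by
  set K : ℝ := C * 2 ^ σ + |Real.log c0| + 1 with hK
  have hKpos : 0 < K := by positivity
  have hlim : Tendsto (fun R : ℝ => 4 * r * K * R ^ (σ - 1)) atTop (𝓝 0) := by
    have h1 := tendsto_rpow_neg_atTop (y := 1 - σ) (by linarith)
    have h2 := h1.const_mul (4 * r * K)
    rw [mul_zero] at h2
    refine h2.congr (fun R => ?_)
    congr 2; ring
  obtain ⟨R1, hR1⟩ := eventually_atTop.1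
    ((hlim.eventually_le_const (Real.log_pos (by norm_num : (1 : ℝ) < 2))).and
      (eventually_ge_atTop (max 1 (2 * r + 1))))
  refine ⟨R1, fun R hR E hE hne hb hE0 z hz => ?_⟩
  obtain ⟨h1, h2⟩ := hR1 R hR
  have hR1' : 1 ≤ R := (le_max_left _ _).trans h2
  have hR2 : 2 * r + 1 ≤ R := (le_max_right _ _).trans h2
  have hRpos : 0 < R := by linarith
  have hRσ : 1 ≤ R ^ σ := Real.one_le_rpow hR1' hσ0
  have hzR : ‖z‖ < R := by linarith
  have hL : 0 < K * R ^ σ := by positivity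
  have hlog : ∀ w : ℂ, ‖w‖ < R → Real.log ‖E w‖ - Real.log ‖E 0‖ ≤ K * R ^ σ := by
    intro w hw
    have h3 : Real.log ‖E w‖ ≤ C * (2 * R) ^ σ := by
      rw [← Real.log_exp (C * (2 * R) ^ σ)]
      exact Real.log_le_log (norm_pos_iff.2 (hne w hw)) (hb w hw)
    rw [Real.mul_rpow (by norm_num) hRpos.le] at h3
    rw [hE0, hK]
    have h4 := neg_abs_le (Real.log c0)
    have h5 : |Real.log c0| ≤ |Real.log c0| * R ^ σ := le_mul_of_one_le_right (abs_nonneg _) hRσ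
    nlinarith
  have h3 := zero_free_lower hE hRpos hL hne hlog hzR
  refine le_trans ?_ h3
  rw [hE0, div_eq_mul_inv]
  gcongr
  have e2 : (2 : ℝ)⁻¹ = Real.exp (-Real.log 2) := by
    rw [Real.exp_neg, Real.exp_log (by norm_num)]
  rw [e2]
  apply Real.exp_le_exp.2
  apply neg_le_neg
  refine le_trans ?_ h1
  rw [div_le_iff₀ (by linarith)]
  have e3 : R ^ (σ - 1) * R = R ^ σ := by
    rw [← Real.rpow_add_one hRpos.ne']; congr 1; ring
  have h6 : 2 * (K * R ^ σ) * ‖z‖ ≤ 2 * (K * R ^ σ) * r := by gcongr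
  have h7 : 0 ≤ K * R ^ (σ - 1) * r := by positivity
  have h8 : 2 * (K * R ^ σ) * r = 4 * r * K * R ^ (σ - 1) * (R / 2) := by
    rw [← e3]; ring
  have h9 : R / 2 ≤ R - ‖z‖ := by linarith
  calc 2 * (K * R ^ σ) * ‖z‖ ≤ 4 * r * K * R ^ (σ - 1) * (R / 2) := by rw [← h8]; exact h6
    _ ≤ 4 * r * K * R ^ (σ - 1) * (R - ‖z‖) := by
        apply mul_le_mul_of_nonneg_left h9
        positivity

theorem D_lower {h : ℂ → ℂ} (hh : Differentiable ℂ h) (h0 : h 0 ≠ 0) :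
    ∃ δ : ℝ, 0 < δ ∧ ∀ a, D h a ≠ 0 → δ ≤ ‖a‖ := by
  obtain ⟨δ, hδ, hball⟩ := Metric.mem_nhds_iff.1 (hh.continuous.continuousAt.eventually_ne h0)
  refine ⟨δ, hδ, fun a ha => ?_⟩
  by_contra hcon
  exact ha (D_eq_zero (hball (by simpa using not_le.1 hcon)))

/-- Minimum modulus of entire functions of order less than one half, after Wiman. -/
theorem minmod0 {h : ℂ → ℂ} (hh : Differentiable ℂ h) (h0 : h 0 ≠ 0) {C σ : ℝ} (hσ0 : 0 ≤ σ)
    (hσ1 : σ < 1 / 2) (hC : 0 ≤ C) (hg : ∀ z : ℂ, 1 ≤ ‖z‖ → ‖h z‖ ≤ Real.exp (C * ‖z‖ ^ σ))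
    (hnc : ∃ z, h z ≠ h 0) (A R0 : ℝ) : ∃ r : ℝ, R0 ≤ r ∧ ∀ z : ℂ, ‖z‖ = r → A < ‖h z‖ := by
  classical
  have hn0 : 0 < ‖h 0‖ := norm_pos_iff.2 h0
  have hne : ∃ z, h z ≠ 0 := ⟨0, h0⟩
  -- bound on discs
  have hgR : ∀ R : ℝ, 1 ≤ R → ∀ z : ℂ, ‖z‖ = R → ‖h z‖ ≤ Real.exp (C * R ^ σ) := by
    intro R hR z hz
    have := hg z (by rw [hz]; exact hR)
    rwa [hz] at this
  have hgR' : ∀ R : ℝ, 1 ≤ R → ∀ z : ℂ, ‖z‖ ≤ R → ‖h z‖ ≤ Real.exp (C * R ^ σ) := by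
    intro R hR z hz
    refine Complex.norm_le_of_forall_mem_frontier_norm_le (U := ball 0 R) isBounded_ball
      hh.diffContOnCl ?_ ?_
    · intro w hw
      rw [frontier_ball _ (by linarith), mem_sphere_zero_iff_norm] at hw
      exact hgR R hR w hw
    · rw [closure_ball _ (by linarith)]; simpa using hz
  -- there is a zero
  obtain ⟨a0, ha0⟩ : ∃ a0, h a0 = 0 := by
    by_contra hcon
    push Not at hcon
    have hb : ∀ z, ‖h 0‖ / 2 ≤ ‖h z‖ := by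
      intro z
      obtain ⟨R1, hR1⟩ := E_lower (C := C) hσ0 (by linarith) hC hn0 (norm_nonneg z)
      have hR := hR1 (max R1 1) (le_max_left _ _) h hh (fun w _ => hcon w) (fun w hw => ?_) rfl z le_rfl
      · exact hR
      · refine (hgR' _ (le_max_right _ _) w hw.le).trans ?_
        have : 0 < max R1 1 := lt_max_of_lt_right one_pos
        apply Real.exp_le_exp.2
        gcongr
        linarith
    have hinv : Differentiable ℂ (fun z => (h z)⁻¹) := hh.inv hcon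
    have hbd : Bornology.IsBounded (Set.range (fun z => (h z)⁻¹)) := by
      rw [isBounded_iff_forall_norm_le]
      refine ⟨(‖h 0‖ / 2)⁻¹, ?_⟩
      rintro _ ⟨z, rfl⟩
      rw [norm_inv]
      exact inv_anti₀ (by positivity) (hb z)
    obtain ⟨z, hz⟩ := hnc
    have := hinv.apply_eq_apply_of_bounded hbd z 0
    exact hz (inv_injective this)
  have hDa0 : D h a0 ≠ 0 := D_ne_zero hh hne ha0
  have ha00 : a0 ≠ 0 := fun h' => h0 (h' ▸ ha0)
  -- summability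
  obtain ⟨δ, hδ, hDδ⟩ := D_lower hh h0
  set C' : ℝ := (C * 3 ^ σ + |Real.log ‖h 0‖|) / Real.log 2 with hC'
  have hlog2 : 0 < Real.log 2 := Real.log_pos (by norm_num)
  have hC'0 : 0 ≤ C' := by positivity
  have hcount : ∀ r : ℝ, 1 ≤ r → ∀ Z : Finset ℂ, (∀ a ∈ Z, ‖a‖ ≤ r) →
      ∑ a ∈ Z, (D h a : ℝ) ≤ C' * r ^ σ := by
    intro r hr Z hZ
    have h1 := count_le hh h0 (r := r) (M := Real.exp (C * (3 * r) ^ σ)) (by linarith)
      (fun z hz => hgR (3 * r) (by linarith) z hz) hZ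
    rw [Real.log_exp, Real.mul_rpow (by norm_num) (by linarith)] at h1
    rw [hC', div_mul_eq_mul_div, le_div_iff₀ hlog2]
    have hrσ : 1 ≤ r ^ σ := Real.one_le_rpow hr hσ0
    have h4 := neg_abs_le (Real.log ‖h 0‖)
    have h5 : |Real.log ‖h 0‖| ≤ |Real.log ‖h 0‖| * r ^ σ := le_mul_of_one_le_right (abs_nonneg _) hrσ
    nlinarith
  set τ : ℝ := (σ + 1 / 2) / 2 with hτ
  have hs' : Summable (fun a => (D h a : ℝ) * ‖a‖ ^ (-τ)) :=
    summable_dyadic hδ hσ0 (by linarith) hC'0 hDδ hcount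
  have hs : Summable (fun a => (D h a : ℝ) * ‖a‖⁻¹) := by
    have := summable_dyadic (τ := 1) hδ hσ0 (by linarith) hC'0 hDδ hcount
    simpa [Real.rpow_neg_one] using this
  -- the radius
  obtain ⟨r, hr, hHr⟩ := HH_neg_unbounded (τ := τ) (by linarith) (by linarith) hs hs' hDa0 ha00
    (2 * |A| / ‖h 0‖) (max R0 1)
  have hr1 : 1 ≤ r := (le_max_right _ _).trans hr
  refine ⟨r, (le_max_left _ _).trans hr, fun z hz => ?_⟩
  have ht := (HH_tendsto hs (-(r : ℂ))).norm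
  obtain ⟨F0, hF0⟩ := eventually_atTop.1 (ht.eventually_const_lt hHr)
  obtain ⟨R1, hR1⟩ := E_lower (C := C) hσ0 (by linarith : σ < 1) hC hn0 (by linarith : 0 ≤ r)
  obtain ⟨R2, hR2⟩ : ∃ R2 : ℝ, ∀ a ∈ F0, ‖a‖ ≤ R2 := by
    obtain ⟨M, hM⟩ := (F0.finite_toSet.image norm).bddAbove
    exact ⟨M, fun a ha => hM ⟨a, ha, rfl⟩⟩
  set R := max (max R1 R2) 1 with hRdef
  have hRR1 : R1 ≤ R := (le_max_left _ _).trans (le_max_left _ _)
  have hRR2 : R2 ≤ R := (le_max_right _ _).trans (le_max_left _ _)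
  have hR1' : 1 ≤ R := le_max_right _ _
  set Z := (finite_zeros hh hne R).toFinset with hZ
  have hmemZ : ∀ a, a ∈ Z ↔ ‖a‖ ≤ R ∧ h a = 0 := by
    intro a; rw [hZ, Set.Finite.mem_toFinset]; rfl
  have hZ0 : ∀ a ∈ Z, a ≠ 0 := fun a ha h' => h0 (h' ▸ ((hmemZ a).1 ha).2)
  obtain ⟨E, hE, hEne, hEeq⟩ := factor_normalized hh h0 Z hZ0
  have hE0 : E 0 = h 0 := by rw [hEeq 0]; simp
  have hEb := E_bound hE hEeq (c := 1) (R := R) (M := Real.exp (C * (2 * R) ^ σ)) le_rfl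
    (by linarith) (fun a ha => ⟨hZ0 a ha, ((hmemZ a).1 ha).1⟩)
    (fun w hw => hgR (2 * R) (by linarith) w (by rw [hw]; ring))
  have hEz : ‖h 0‖ / 2 ≤ ‖E z‖ := by
    refine hR1 R hRR1 E hE ?_ ?_ (by rw [hE0]) z hz.le
    · intro w hw hEw
      have hhw : h w = 0 := by rw [hEeq w, hEw, mul_zero]
      exact hEne w ((hmemZ w).2 ⟨hw.le, hhw⟩) hEw
    · intro w hw
      have := hEb w (by linarith)
      simpa using this
  have hprod : 2 * |A| / ‖h 0‖ < ∏ a ∈ Z, ‖(1 + -(r : ℂ) / (‖a‖ : ℂ)) ^ (D h a)‖ := by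
    have h1 := hF0 (F0 ∪ Z) Finset.subset_union_left
    rw [norm_prod] at h1
    refine h1.trans_le (le_of_eq ?_)
    symm
    apply Finset.prod_subset Finset.subset_union_right
    intro a ha haZ
    have haF : a ∈ F0 := (Finset.mem_union.1 ha).resolve_right haZ
    have : h a ≠ 0 := fun h' => haZ ((hmemZ a).2 ⟨(hR2 a haF).trans hRR2, h'⟩)
    rw [D_eq_zero this]; simp
  have hprod2 : ∏ a ∈ Z, ‖(1 + -(r : ℂ) / (‖a‖ : ℂ)) ^ (D h a)‖ ≤ ‖∏ a ∈ Z, (1 - z / a) ^ (D h a)‖ := by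
    rw [norm_prod]
    apply Finset.prod_le_prod (fun a _ => norm_nonneg _)
    intro a ha
    rw [norm_pow, norm_pow]
    apply pow_le_pow_left₀ (norm_nonneg _)
    have e1 : (1 + -(r : ℂ) / (‖a‖ : ℂ)) = ((1 - r / ‖a‖ : ℝ) : ℂ) := by push_cast; ring
    rw [e1, Complex.norm_real, Real.norm_eq_abs]
    have := abs_norm_sub_norm_le (1 : ℂ) (z / a)
    rwa [norm_one, norm_div, hz] at this
  rw [hEeq z, norm_mul]
  have hA : |A| = 2 * |A| / ‖h 0‖ * (‖h 0‖ / 2) := by field_simp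
  calc A ≤ |A| := le_abs_self A
    _ = 2 * |A| / ‖h 0‖ * (‖h 0‖ / 2) := hA
    _ < ‖∏ a ∈ Z, (1 - z / a) ^ (D h a)‖ * (‖h 0‖ / 2) :=
        mul_lt_mul_of_pos_right (hprod.trans_le hprod2) (by positivity)
    _ ≤ _ := mul_le_mul_of_nonneg_left hEz (norm_nonneg _)

end Pool.Agent.H9.Pf
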