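import Mathlib
import Pool.Agent.H9.Pf.MinMod
import Pool.Agent.H9.Pf.Defs

set_option autoImplicit false
open MeasureTheory Filter Topology Metric Real

namespace Pool.Agent.H9.Pf

/-! ### value distribution -/

open ValueDistribution

theorem limsup_le_real {u : ℝ → ℝ} {L : ℝ} (h : ∀ ε : ℝ, 0 < ε → ∀ᶠ r in atTop, u r ≤ L + ε) :
    limsup (fun r : ℝ => (u r : EReal)) atTop ≤ (L : EReal) := by
  rw [← EReal.le_of_forall_lt_iff_le]
  intro z hz
  have hz' : L < z := by exact_mod_cast hz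
  refine limsup_le_of_le (by isBoundedDefault) ?_
  filter_upwards [h (z - L) (by linarith)] with r hr
  have : u r ≤ z := by linarith
  exact_mod_cast this

theorem le_limsup_real {u : ℝ → ℝ} {L : ℝ} (h : ∀ ε : ℝ, 0 < ε → ∃ᶠ r in atTop, L - ε ≤ u r) :
    (L : EReal) ≤ limsup (fun r : ℝ => (u r : EReal)) atTop := by
  rw [← EReal.ge_of_forall_gt_iff_ge]
  intro z hz
  have hz' : z < L := by exact_mod_cast hz
  refine le_limsup_of_frequently_le ?_ (by isBoundedDefault)
  refine (h (L - z) (by linarith)).mono (fun r hr => ?_)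
  have : z ≤ u r := by linarith
  exact_mod_cast this

theorem T_eq' {f : ℂ → ℂ} (hf : Differentiable ℂ f) : characteristic f ⊤ = T f :=
  funext (T_eq hf)

theorem logCounting_top_eq {f : ℂ → ℂ} (hf : Differentiable ℂ f) : logCounting f ⊤ = 0 := by
  rw [ValueDistribution.logCounting_top]
  have : (MeromorphicOn.divisor f Set.univ)⁻ = 0 := by
    rw [negPart_eq_zero]
    exact MeromorphicOn.AnalyticOnNhd.divisor_nonneg (fun w _ => hf.analyticAt w)
  rw [this]
  simp

theorem N_prox {f : ℂ → ℂ} (hf : Differentiable ℂ f) (a : ℂ) : ∃ K : ℝ, ∀ r : ℝ, r ≠ 0 →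
    |logCounting f (a : WithTop ℂ) r + proximity f (a : WithTop ℂ) r - T f r| ≤ K := by
  have hm : Meromorphic f := fun z => (hf.analyticAt z).meromorphicAt
  set g : ℂ → ℂ := f - fun _ => a with hg
  have hgm : Meromorphic g := fun z =>
    ((hf.sub (differentiable_const a)).analyticAt z).meromorphicAt
  refine ⟨|Real.log ‖meromorphicTrailingCoeffAt g 0‖| + (log⁺ ‖a‖ + Real.log 2), fun r hr => ?_⟩
  rw [logCounting_coe_eq_logCounting_sub_const_zero, proximity_coe_eq_proximity_sub_const_zero,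
    ← hg, ← proximity_inv, ← logCounting_inv]
  have e1 : logCounting g⁻¹ ⊤ r + proximity g⁻¹ ⊤ r = characteristic g⁻¹ ⊤ r := by
    rw [characteristic, Pi.add_apply, add_comm]
  rw [e1]
  have h1 := characteristic_sub_characteristic_inv_of_ne_zero hgm hr
  have h2 := abs_characteristic_sub_characteristic_shift_le (a₀ := a) (r := r) hm
  have e2 : characteristic (f · - a) ⊤ r = characteristic g ⊤ r := rfl
  rw [e2, T_eq hf] at h2
  have e3 : characteristic g⁻¹ ⊤ r - T f r =
      -(characteristic g ⊤ r - characteristic g⁻¹ ⊤ r) - (T f r - characteristic g ⊤ r) := by ring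
  rw [e3, h1]
  refine (abs_sub _ _).trans ?_
  rw [abs_neg]
  linarith

theorem le_exp_of_posLog {x y : ℝ} (hx : 0 ≤ x) (h : log⁺ x ≤ y) : x ≤ Real.exp y := by
  rcases hx.eq_or_lt with h0 | h0
  · rw [← h0]; exact (Real.exp_pos y).le
  · calc x = Real.exp (Real.log x) := (Real.exp_log h0).symm
      _ ≤ Real.exp y := Real.exp_le_exp.2 ((le_max_right 0 _).trans h)

theorem growth_of_order {f : ℂ → ℂ} (hf : Differentiable ℂ f) {σ : ℝ} (hσ0 : 0 ≤ σ)
    (hσ : order f < (σ : EReal)) :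
    ∃ C : ℝ, 0 ≤ C ∧ ∀ z : ℂ, 1 ≤ ‖z‖ → ‖f z‖ ≤ Real.exp (C * ‖z‖ ^ σ) := by
  have hev := eventually_lt_of_limsup_lt hσ
  obtain ⟨R0, hR0⟩ := eventually_atTop.1 (hev.and (eventually_ge_atTop 2))
  have hR2 : 2 ≤ max R0 2 := le_max_right _ _
  set R := max R0 2 with hR
  have hT : ∀ r : ℝ, R ≤ r → T f r ≤ r ^ σ := by
    intro r hr
    obtain ⟨h1, h2⟩ := hR0 r ((le_max_left _ _).trans hr)
    have h3 : Real.log (characteristic f ⊤ r) / Real.log r < σ := by exact_mod_cast h1
    rw [T_eq hf, div_lt_iff₀ (Real.log_pos (by linarith))] at h3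
    rcases (T_nonneg f r).eq_or_lt with h4 | h4
    · rw [← h4]; positivity
    · rw [← Real.log_rpow (by linarith)] at h3
      exact ((Real.log_lt_log_iff h4 (by positivity)).1 h3).le
  have hT1 : ∀ r : ℝ, 1 ≤ r → T f r ≤ (T f R + 1) * r ^ σ := by
    intro r hr
    have hrσ : 1 ≤ r ^ σ := Real.one_le_rpow hr hσ0
    have hTR := T_nonneg f R
    rcases le_or_gt R r with h | h
    · have := hT r h
      nlinarith
    · have := T_mono hf (by linarith) h.le
      nlinarith
  refine ⟨4 * ((T f R + 1) * 2 ^ σ), by have := T_nonneg f R; positivity, fun z hz => ?_⟩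
  have hz0 : z ≠ 0 := by
    intro h; rw [h, norm_zero] at hz; linarith
  apply le_exp_of_posLog (norm_nonneg _)
  refine (growth hf hz0).trans ?_
  have := hT1 (2 * ‖z‖) (by linarith)
  rw [Real.mul_rpow (by norm_num) (norm_nonneg z)] at this
  nlinarith

theorem T_tendsto {f : ℂ → ℂ} (hf : Differentiable ℂ f) (h : 0 < order f) :
    Tendsto (T f) atTop atTop := by
  rw [Filter.tendsto_atTop]
  intro K
  by_contra hcon
  have hb : ∀ r : ℝ, 1 ≤ r → T f r ≤ K := by
    intro r hr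
    by_contra hc
    apply hcon
    filter_upwards [eventually_ge_atTop r] with s hs
    exact (not_le.1 hc).le.trans (T_mono hf (by linarith) hs)
  apply absurd h
  rw [not_lt]
  have h0 : ((0 : ℝ) : EReal) = 0 := rfl
  rw [← h0]
  apply limsup_le_real
  intro ε hε
  have hlim : Tendsto (fun r : ℝ => Real.log (max K 1) / Real.log r) atTop (𝓝 0) :=
    Tendsto.div_atTop tendsto_const_nhds Real.tendsto_log_atTop
  filter_upwards [hlim.eventually_le_const hε, eventually_gt_atTop 1] with r h1 h2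
  rw [zero_add, T_eq hf]
  refine le_trans ?_ h1
  have hlr := Real.log_pos h2
  rcases (T_nonneg f r).eq_or_lt with h4 | h4
  · rw [← h4, Real.log_zero, zero_div]
    exact div_nonneg (Real.log_nonneg (le_max_right _ _)) hlr.le
  · gcongr
    exact (hb r h2.le).trans (le_max_left _ _)

/-- minimum modulus of `f - a` -/
theorem minmod {f : ℂ → ℂ} (hf : Differentiable ℂ f) (hnc : ∃ z w, f z ≠ f w) {C σ : ℝ}
    (hσ0 : 0 ≤ σ) (hσ1 : σ < 1 / 2) (hC : 0 ≤ C)
    (hg : ∀ z : ℂ, 1 ≤ ‖z‖ → ‖f z‖ ≤ Real.exp (C * ‖z‖ ^ σ)) (a : ℂ) (A R0 : ℝ) :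
    ∃ r : ℝ, R0 ≤ r ∧ ∀ z : ℂ, ‖z‖ = r → A < ‖f z - a‖ := by
  set h : ℂ → ℂ := fun z => f z - a with hh
  have hd : Differentiable ℂ h := hf.sub_const a
  have hne : ∃ z, h z ≠ 0 := by
    by_contra hcon
    push Not at hcon
    obtain ⟨z, w, hzw⟩ := hnc
    apply hzw
    have h1 := sub_eq_zero.1 (hcon z)
    have h2 := sub_eq_zero.1 (hcon w)
    rw [h1, h2]
  obtain ⟨h1, hd1, h10, heq⟩ := factor_one hd hne 0
  simp only [sub_zero] at heq
  have hbase : ∀ z : ℂ, 1 ≤ ‖z‖ → ‖h1 z‖ ≤ ‖h z‖ := by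
    intro z hz
    rw [heq z, norm_mul, norm_pow]
    exact le_mul_of_one_le_left (norm_nonneg _) (one_le_pow₀ hz)
  by_cases hc : ∃ z, h1 z ≠ h1 0
  · have hg1 : ∀ z : ℂ, 1 ≤ ‖z‖ → ‖h1 z‖ ≤ Real.exp ((C + Real.log (1 + ‖a‖)) * ‖z‖ ^ σ) := by
      intro z hz
      refine (hbase z hz).trans ((norm_sub_le _ _).trans ?_)
      have hzσ : 1 ≤ ‖z‖ ^ σ := Real.one_le_rpow hz hσ0
      have hla : 0 ≤ Real.log (1 + ‖a‖) := Real.log_nonneg (by have := norm_nonneg a; linarith)
      have h2 := hg z hz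
      have h3 : 1 ≤ Real.exp (C * ‖z‖ ^ σ) := Real.one_le_exp (by positivity)
      calc ‖f z‖ + ‖a‖ ≤ Real.exp (C * ‖z‖ ^ σ) * (1 + ‖a‖) := by
            nlinarith [norm_nonneg a]
        _ = Real.exp (C * ‖z‖ ^ σ + Real.log (1 + ‖a‖)) := by
            rw [Real.exp_add, Real.exp_log (by positivity)]
        _ ≤ _ := by
            apply Real.exp_le_exp.2
            nlinarith
    have hla : 0 ≤ Real.log (1 + ‖a‖) := Real.log_nonneg (by have := norm_nonneg a; linarith)
    obtain ⟨r, hr, hz⟩ := minmod0 hd1 h10 hσ0 hσ1 (add_nonneg hC hla) hg1 hc A (max R0 1)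
    refine ⟨r, (le_max_left _ _).trans hr, fun z hzr => ?_⟩
    exact (hz z hzr).trans_le (hbase z (by rw [hzr]; exact (le_max_right _ _).trans hr))
  · push Not at hc
    have hm : D h 0 ≠ 0 := by
      intro h0
      obtain ⟨z, w, hzw⟩ := hnc
      apply hzw
      have e : ∀ z, f z = h1 0 + a := by
        intro z
        have h2 : f z - a = h1 0 := by
          have := heq z
          rw [h0, pow_zero, one_mul, hc z] at this
          exact this
        rw [← h2]; ring
      rw [e z, e w]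
    have hp : 0 < ‖h1 0‖ := norm_pos_iff.2 h10
    refine ⟨max (max R0 1) (|A| / ‖h1 0‖ + 1), (le_max_left _ _).trans (le_max_left _ _),
      fun z hz => ?_⟩
    have hz1 : 1 ≤ ‖z‖ := by rw [hz]; exact (le_max_right _ _).trans (le_max_left _ _)
    have hz2 : |A| / ‖h1 0‖ + 1 ≤ ‖z‖ := by rw [hz]; exact le_max_right _ _
    change A < ‖h z‖
    rw [heq z, norm_mul, norm_pow, hc z]
    have h3 : ‖z‖ ≤ ‖z‖ ^ (D h 0) := le_self_pow₀ hz1 hm
    calc A ≤ |A| := le_abs_self A
      _ = |A| / ‖h1 0‖ * ‖h1 0‖ := by field_simp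
      _ < ‖z‖ * ‖h1 0‖ := by
          apply mul_lt_mul_of_pos_right _ hp
          linarith
      _ ≤ _ := by gcongr

theorem proximity_zero_of_large {f : ℂ → ℂ} {a : ℂ} {r : ℝ} (hr : 0 < r)
    (h : ∀ z : ℂ, ‖z‖ = r → 1 < ‖f z - a‖) : proximity f (a : WithTop ℂ) r = 0 := by
  rw [proximity_coe]
  have : ∀ z ∈ sphere (0 : ℂ) |r|, (fun z => log⁺ ‖f z - a‖⁻¹) z = (fun _ => (0 : ℝ)) z := by
    intro z hz
    have hz' : ‖z‖ = r := by
      rw [mem_sphere_zero_iff_norm, abs_of_pos hr] at hz; exact hz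
    have h1 := h z hz'
    simp only
    rw [posLog_eq_zero_iff, abs_of_nonneg (by positivity)]
    exact inv_le_one_of_one_le₀ h1.le
  rw [circleAverage_congr_sphere this, circleAverage_const]

theorem limsup_N {f : ℂ → ℂ} (hf : Differentiable ℂ f) {ρ : ℝ} (h0 : 0 < ρ) (h1 : ρ < 1 / 2)
    (hρ : order f = (ρ : EReal)) (a : ℂ) :
    limsup (fun r : ℝ => ((logCounting f (a : WithTop ℂ) r / characteristic f ⊤ r : ℝ) : EReal))
      atTop = 1 := by
  have hT := T_tendsto hf (by rw [hρ]; exact_mod_cast h0)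
  obtain ⟨K, hK⟩ := N_prox hf a
  obtain ⟨C, hC, hg⟩ := growth_of_order hf (σ := (ρ + 1 / 2) / 2) (by linarith)
    (by rw [hρ]; exact_mod_cast (by linarith : ρ < (ρ + 1 / 2) / 2))
  have hnc : ∃ z w, f z ≠ f w := by
    by_contra hcon
    push Not at hcon
    have : ∀ r, T f r = log⁺ ‖f 0‖ := by
      intro r
      have e : (fun w => log⁺ ‖f w‖) = fun _ => log⁺ ‖f 0‖ := by
        funext w; rw [hcon w 0]
      rw [T, e, circleAverage_const]
    have h2 := hT.eventually (eventually_gt_atTop (log⁺ ‖f 0‖))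
    obtain ⟨r, hr⟩ := h2.exists
    rw [this r] at hr
    exact lt_irrefl _ hr
  have hKT : ∀ ε : ℝ, 0 < ε → ∀ᶠ r in atTop, |K| / T f r ≤ ε ∧ 0 < T f r := by
    intro ε hε
    have hl : Tendsto (fun r => |K| / T f r) atTop (𝓝 0) := Tendsto.div_atTop tendsto_const_nhds hT
    filter_upwards [hl.eventually_le_const hε, hT.eventually (eventually_gt_atTop 0)] with r h3 h4
    exact ⟨h3, h4⟩
  have hone : ((1 : ℝ) : EReal) = 1 := rfl
  rw [← hone]
  apply le_antisymm
  · apply limsup_le_real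
    intro ε hε
    filter_upwards [hKT ε hε, eventually_gt_atTop 0] with r h3 h4
    rw [T_eq hf, div_le_iff₀ h3.2]
    have h5 := (abs_le.1 (hK r h4.ne')).2
    have h6 : 0 ≤ proximity f (a : WithTop ℂ) r := proximity_nonneg r
    have h7 := h3.1
    rw [div_le_iff₀ h3.2] at h7
    have := le_abs_self K
    nlinarith
  · apply le_limsup_real
    intro ε hε
    rw [frequently_atTop]
    intro R
    obtain ⟨R1, hR1⟩ := eventually_atTop.1 (hKT ε hε)
    obtain ⟨r, hr, hz⟩ := minmod hf hnc (by linarith) (by linarith) hC hg a 1 (max (max R R1) 1)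
    have hr1 : 1 ≤ r := (le_max_right _ _).trans hr
    have hrR : R ≤ r := (le_max_left _ _).trans ((le_max_left _ _).trans hr)
    have hrR1 : R1 ≤ r := (le_max_right _ _).trans ((le_max_left _ _).trans hr)
    refine ⟨r, hrR, ?_⟩
    have hp := proximity_zero_of_large (f := f) (a := a) (by linarith) hz
    obtain ⟨h3, h4⟩ := hR1 r hrR1
    have h5 := (abs_le.1 (hK r (by linarith))).1
    rw [hp, add_zero] at h5
    rw [T_eq hf, le_div_iff₀ h4]
    rw [div_le_iff₀ h4] at h3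
    have := le_abs_self K
    nlinarith

end Pool.Agent.H9.Pf
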