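import Mathlib
import Pool.Agent.H9.Pf.Value

set_option autoImplicit false
open MeasureTheory Filter Topology Metric Real

namespace Pool.Agent.H9.Pf

/-! ### the example -/

/-- exponents of the lacunary series -/
def nn : ℕ → ℕ
  | 0 => 1
  | k + 1 => 2 ^ nn k

theorem nn_lt (k : ℕ) : k < nn k := by
  induction k with
  | zero => simp [nn]
  | succ k ih =>
    calc k + 1 ≤ nn k := ih
      _ < 2 ^ nn k := Nat.lt_two_pow_self
      _ = nn (k + 1) := rfl

theorem nn_strictMono : StrictMono nn := strictMono_nat_of_lt_succ (fun _ => Nat.lt_two_pow_self)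

theorem nn_pos (k : ℕ) : 0 < nn k := (Nat.zero_le k).trans_lt (nn_lt k)

theorem nn_succ (k : ℕ) : nn (k + 1) = 2 ^ nn k := rfl

attribute [irreducible] nn

/-- moduli of the lacunary series -/
noncomputable def bb (ρ : ℝ) (k : ℕ) : ℝ := (nn k : ℝ) ^ (1 / ρ)

theorem bb_one_le {ρ : ℝ} (hρ : 0 < ρ) (k : ℕ) : 1 ≤ bb ρ k :=
  Real.one_le_rpow (by exact_mod_cast nn_pos k) (by positivity)

theorem bb_mono {ρ : ℝ} (hρ : 0 < ρ) : Monotone (bb ρ) := fun i j h =>
  Real.rpow_le_rpow (by positivity) (by exact_mod_cast nn_strictMono.monotone h) (by positivity)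

theorem bb_rpow {ρ : ℝ} (hρ : 0 < ρ) (k : ℕ) : bb ρ k ^ ρ = nn k := by
  rw [bb, ← Real.rpow_mul (by positivity), one_div, inv_mul_cancel₀ hρ.ne', Real.rpow_one]

theorem bb_tendsto {ρ : ℝ} (hρ : 0 < ρ) : Tendsto (bb ρ) atTop atTop := by
  have h1 : Tendsto (fun k => (nn k : ℝ)) atTop atTop :=
    tendsto_natCast_atTop_atTop.comp nn_strictMono.tendsto_atTop
  exact (tendsto_rpow_atTop (by positivity : 0 < 1 / ρ)).comp h1

/-- the term of the series -/
theorem term_le {ρ : ℝ} (hρ : 0 < ρ) (k : ℕ) {R : ℝ} (hR : 0 ≤ R) :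
    (R / bb ρ k) ^ nn k ≤ Real.exp ((2 * R) ^ ρ / ρ) * (1 / 2) ^ k := by
  have hb := bb_one_le hρ k
  have hbpos : 0 < bb ρ k := by linarith
  have h1 : (2 * R / bb ρ k) ^ nn k ≤ Real.exp ((2 * R) ^ ρ / ρ) := by
    rcases hR.eq_or_lt with h0 | h0
    · rw [← h0, mul_zero, zero_div, zero_pow (nn_pos k).ne']
      exact (Real.exp_pos _).le
    · have hx : 0 < 2 * R / bb ρ k := by positivity
      rw [← Real.log_le_iff_le_exp (by positivity), Real.log_pow]
      have h2 : Real.log ((2 * R / bb ρ k) ^ ρ) ≤ (2 * R / bb ρ k) ^ ρ := by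
        have := Real.log_le_sub_one_of_pos (show 0 < (2 * R / bb ρ k) ^ ρ by positivity)
        linarith
      rw [Real.log_rpow hx, Real.div_rpow (by positivity) hbpos.le, bb_rpow hρ] at h2
      have hn : (0 : ℝ) < nn k := by exact_mod_cast nn_pos k
      rw [le_div_iff₀ hn] at h2
      rw [le_div_iff₀ hρ]
      linarith
  have h2 : (R / bb ρ k) ^ nn k = (2 * R / bb ρ k) ^ nn k * (1 / 2) ^ nn k := by
    rw [← mul_pow]; congr 1; ring
  rw [h2]
  have h3 : ((1 : ℝ) / 2) ^ nn k ≤ (1 / 2) ^ k :=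
    pow_le_pow_of_le_one (by norm_num) (by norm_num) (nn_lt k).le
  exact mul_le_mul h1 h3 (by positivity) (Real.exp_pos _).le

/-- the lacunary series -/
noncomputable def ff (ρ : ℝ) (z : ℂ) : ℂ := ∑' k, (z / (bb ρ k : ℂ)) ^ nn k

theorem norm_term {ρ : ℝ} (hρ : 0 < ρ) (k : ℕ) (z : ℂ) :
    ‖(z / (bb ρ k : ℂ)) ^ nn k‖ = (‖z‖ / bb ρ k) ^ nn k := by
  have hb := bb_one_le hρ k
  rw [norm_pow, norm_div, Complex.norm_real, Real.norm_eq_abs, abs_of_nonneg (by linarith)]

theorem summable_term {ρ : ℝ} (hρ : 0 < ρ) {R : ℝ} (hR : 0 ≤ R) :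
    Summable (fun k => (R / bb ρ k) ^ nn k) := by
  refine Summable.of_nonneg_of_le (fun k => ?_) (fun k => term_le hρ k hR)
    ((summable_geometric_of_lt_one (by norm_num) (by norm_num)).mul_left _)
  have hb := bb_one_le hρ k
  positivity

theorem ff_differentiable {ρ : ℝ} (hρ : 0 < ρ) : Differentiable ℂ (ff ρ) := by
  intro z
  have h := Complex.differentiableOn_tsum_of_summable_norm (U := ball (0 : ℂ) (‖z‖ + 1))
    (F := fun (k : ℕ) (z : ℂ) => (z / (bb ρ k : ℂ)) ^ nn k)
    (u := fun k => ((‖z‖ + 1) / bb ρ k) ^ nn k) (summable_term hρ (by positivity))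
    (fun k => Differentiable.differentiableOn (by fun_prop)) isOpen_ball (fun k w hw => ?_)
  · exact (h z (by simp)).differentiableAt (isOpen_ball.mem_nhds (by simp))
  · have hw' : ‖w‖ < ‖z‖ + 1 := by simpa using hw
    rw [norm_term hρ]
    have hb := bb_one_le hρ k
    gcongr

theorem ff_norm_le {ρ : ℝ} (hρ : 0 < ρ) (z : ℂ) : ‖ff ρ z‖ ≤ ∑' k, (‖z‖ / bb ρ k) ^ nn k := by
  have hs := summable_term hρ (norm_nonneg z)
  have := norm_tsum_le_tsum_norm (f := fun k => (z / (bb ρ k : ℂ)) ^ nn k)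
    (by simpa only [norm_term hρ] using hs)
  simp only [norm_term hρ] at this
  exact this

theorem T_le {f : ℂ → ℂ} (hf : Differentiable ℂ f) {r A : ℝ} (hr : 0 ≤ r) (hA : 1 ≤ A)
    (h : ∀ z : ℂ, ‖z‖ = r → ‖f z‖ ≤ A) : T f r ≤ Real.log A := by
  apply circleAverage_mono_on_of_le_circle
  · exact (continuous_posLog_norm hf.continuous).continuousOn.circleIntegrable'
  · intro z hz
    rw [mem_sphere_zero_iff_norm, abs_of_nonneg hr] at hz
    rw [posLog_def]
    refine max_le (Real.log_nonneg hA) ?_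
    change Real.log ‖f z‖ ≤ Real.log A
    rcases (norm_nonneg (f z)).eq_or_lt with h0 | h0
    · rw [← h0, Real.log_zero]; exact Real.log_nonneg hA
    · exact Real.log_le_log h0 (h z hz)

theorem ff_T_upper {ρ : ℝ} (hρ : 0 < ρ) {r : ℝ} (hr : 1 ≤ r) :
    T (ff ρ) r ≤ (Real.log 2 + 2 ^ ρ / ρ) * r ^ ρ := by
  have h1 : T (ff ρ) r ≤ Real.log (2 * Real.exp ((2 * r) ^ ρ / ρ)) := by
    apply T_le (ff_differentiable hρ) (by linarith)
    · have : 1 ≤ Real.exp ((2 * r) ^ ρ / ρ) := Real.one_le_exp (by positivity)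
      linarith
    · intro z hz
      refine (ff_norm_le hρ z).trans ?_
      rw [hz]
      have h2 := Summable.tsum_le_tsum (fun k => term_le hρ k (by linarith : 0 ≤ r))
        (summable_term hρ (by linarith : 0 ≤ r))
        ((summable_geometric_of_lt_one (by norm_num) (by norm_num)).mul_left _)
      rw [tsum_mul_left, tsum_geometric_of_lt_one (by norm_num) (by norm_num)] at h2
      refine h2.trans (le_of_eq ?_)
      norm_num
      ring
  rw [Real.log_mul (by norm_num) (Real.exp_pos _).ne', Real.log_exp,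
    Real.mul_rpow (by norm_num) (by linarith)] at h1
  have h3 : 1 ≤ r ^ ρ := Real.one_le_rpow hr hρ.le
  have h4 := Real.log_pos (by norm_num : (1 : ℝ) < 2)
  refine h1.trans ?_
  have e : (Real.log 2 + 2 ^ ρ / ρ) * r ^ ρ = Real.log 2 * r ^ ρ + 2 ^ ρ * r ^ ρ / ρ := by ring
  rw [e]
  nlinarith

theorem ff_T_lower {ρ : ℝ} (hρ : 0 < ρ) (k : ℕ) :
    Real.log 2 / 4 / 4 ^ ρ * (4 * bb ρ k) ^ ρ ≤ T (ff ρ) (4 * bb ρ k) := by
  have hb := bb_one_le hρ k
  have hz0 : ((2 * bb ρ k : ℝ) : ℂ) ≠ 0 := by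
    have : (2 * bb ρ k : ℝ) ≠ 0 := by positivity
    exact_mod_cast this
  have hn : ‖((2 * bb ρ k : ℝ) : ℂ)‖ = 2 * bb ρ k := by
    rw [Complex.norm_real, Real.norm_eq_abs, abs_of_pos (by positivity)]
  have h1 := growth (ff_differentiable hρ) hz0
  rw [hn] at h1
  have e1 : 2 * (2 * bb ρ k) = 4 * bb ρ k := by ring
  rw [e1] at h1
  have h2 : (2 : ℝ) ^ nn k ≤ ‖ff ρ ((2 * bb ρ k : ℝ) : ℂ)‖ := by
    have hs := summable_term hρ (R := 2 * bb ρ k) (by positivity)
    have e2 : ff ρ ((2 * bb ρ k : ℝ) : ℂ) = ((∑' j, (2 * bb ρ k / bb ρ j) ^ nn j : ℝ) : ℂ) := by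
      rw [ff, Complex.ofReal_tsum]
      apply tsum_congr
      intro j
      push_cast
      ring
    rw [e2, Complex.norm_real, Real.norm_eq_abs]
    refine le_trans ?_ (le_abs_self _)
    have h3 := hs.le_tsum k (fun j _ => by have := bb_one_le hρ j; positivity)
    have e3 : 2 * bb ρ k / bb ρ k = 2 := by field_simp
    rwa [e3] at h3
  have h3 : (nn k : ℝ) * Real.log 2 ≤ log⁺ ‖ff ρ ((2 * bb ρ k : ℝ) : ℂ)‖ := by
    rw [← Real.log_pow]
    exact (Real.log_le_log (by positivity) h2).trans (le_max_right _ _)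
  rw [Real.mul_rpow (by norm_num) (by positivity), bb_rpow hρ]
  have e4 : Real.log 2 / 4 / 4 ^ ρ * (4 ^ ρ * (nn k : ℝ)) = (nn k : ℝ) * Real.log 2 / 4 := by
    field_simp
  rw [e4]
  linarith

theorem log_ratio {c ρ : ℝ} (hc : 0 < c) {ε : ℝ} (hε : 0 < ε) :
    ∀ᶠ r in atTop, |Real.log (c * r ^ ρ) / Real.log r - ρ| ≤ ε ∧ 1 < r := by
  have hl : Tendsto (fun r : ℝ => Real.log c / Real.log r) atTop (𝓝 0) :=
    Tendsto.div_atTop tendsto_const_nhds Real.tendsto_log_atTop
  have hl2 := hl.abs
  rw [abs_zero] at hl2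
  filter_upwards [hl2.eventually_le_const hε, eventually_gt_atTop 1] with r h1 h2
  refine ⟨?_, h2⟩
  have hlr := Real.log_pos h2
  have e : Real.log (c * r ^ ρ) / Real.log r - ρ = Real.log c / Real.log r := by
    rw [Real.log_mul hc.ne' (by positivity), Real.log_rpow (by linarith)]
    field_simp
    ring
  rw [e]; exact h1

theorem order_ff {ρ : ℝ} (hρ : 0 < ρ) : order (ff ρ) = (ρ : EReal) := by
  have hd := ff_differentiable hρ
  apply le_antisymm
  · apply limsup_le_real
    intro ε hε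
    have hc : 0 < Real.log 2 + 2 ^ ρ / ρ := by
      have := Real.log_pos (by norm_num : (1 : ℝ) < 2)
      positivity
    filter_upwards [log_ratio (ρ := ρ) hc hε] with r hr
    obtain ⟨h1, h2⟩ := hr
    have hlr := Real.log_pos h2
    rw [T_eq hd]
    have h3 := ff_T_upper hρ h2.le
    have h4 := (abs_le.1 h1).2
    have h5 : Real.log (T (ff ρ) r) / Real.log r ≤
        max 0 (Real.log ((Real.log 2 + 2 ^ ρ / ρ) * r ^ ρ) / Real.log r) := by
      rcases (T_nonneg (ff ρ) r).eq_or_lt with h6 | h6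
      · rw [← h6, Real.log_zero, zero_div]; exact le_max_left _ _
      · refine le_trans ?_ (le_max_right _ _)
        gcongr
    refine h5.trans (max_le (by linarith) (by linarith))
  · apply le_limsup_real
    intro ε hε
    have hc : 0 < Real.log 2 / 4 / 4 ^ ρ := by
      have := Real.log_pos (by norm_num : (1 : ℝ) < 2)
      positivity
    have ht : Tendsto (fun k => 4 * bb ρ k) atTop atTop := (bb_tendsto hρ).const_mul_atTop (by norm_num)
    have hev := ht.eventually (log_ratio (ρ := ρ) hc hε)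
    have key : ∀ᶠ k in atTop, ρ - ε ≤
        (fun r => Real.log (ValueDistribution.characteristic (ff ρ) ⊤ r) / Real.log r) (4 * bb ρ k) := by
      filter_upwards [hev] with k hk
      obtain ⟨h1, h2⟩ := hk
      have hlr := Real.log_pos h2
      rw [T_eq hd]
      have h3 := ff_T_lower hρ k
      have h4 := (abs_le.1 h1).1
      have h5 : Real.log (Real.log 2 / 4 / 4 ^ ρ * (4 * bb ρ k) ^ ρ) / Real.log (4 * bb ρ k) ≤
          Real.log (T (ff ρ) (4 * bb ρ k)) / Real.log (4 * bb ρ k) := by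
        gcongr
      linarith
    exact ht.frequently key.frequently

theorem ff_T_small {ρ : ℝ} (hρ : 0 < ρ) :
    ∃ C : ℝ, 0 < C ∧ ∃ᶠ r in atTop, T (ff ρ) r ≤ C * Real.log r ^ 2 := by
  have hlog2 := Real.log_pos (by norm_num : (1 : ℝ) < 2)
  refine ⟨3 * (2 * ρ / Real.log 2), by positivity, ?_⟩
  have ht : Tendsto (fun k => bb ρ (k + 1) / 2) atTop atTop :=
    ((bb_tendsto hρ).comp (tendsto_add_atTop_nat 1)).atTop_div_const (by norm_num)
  have hlt := Real.tendsto_log_atTop.comp ht
  suffices key : ∀ᶠ k in atTop, (fun r => T (ff ρ) r ≤ 3 * (2 * ρ / Real.log 2) * Real.log r ^ 2)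
      (bb ρ (k + 1) / 2) from ht.frequently key.frequently
  filter_upwards [ht.eventually (eventually_ge_atTop 1), hlt.eventually (eventually_ge_atTop 1)]
    with k hk1 hk2
  simp only [Function.comp] at hk2 ⊢
  set r := bb ρ (k + 1) / 2 with hr
  set L := Real.log r with hL
  have hn1 : (1 : ℝ) ≤ nn k := by exact_mod_cast nn_pos k
  -- the size of the exponent
  have hLn : L + Real.log 2 = (nn k : ℝ) * Real.log 2 / ρ := by
    have hb := bb_one_le hρ (k + 1)
    rw [hL, hr, Real.log_div (by positivity) (by norm_num), sub_add_cancel, bb,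
      Real.log_rpow (by exact_mod_cast nn_pos _)]
    have : ((nn (k + 1) : ℕ) : ℝ) = 2 ^ nn k := by
      rw [nn_succ]; push_cast; rfl
    rw [this, Real.log_pow]
    ring
  have hlog21 : Real.log 2 ≤ 1 := by
    have := Real.log_le_sub_one_of_pos (by norm_num : (0 : ℝ) < 2)
    linarith
  have hnk : (nn k : ℝ) ≤ 2 * ρ / Real.log 2 * L := by
    have h1 : (nn k : ℝ) = ρ / Real.log 2 * (L + Real.log 2) := by
      rw [hLn]; field_simp
    rw [h1]
    have h2 : 0 < ρ / Real.log 2 := by positivity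
    have h3 : L + Real.log 2 ≤ 2 * L := by linarith
    calc ρ / Real.log 2 * (L + Real.log 2) ≤ ρ / Real.log 2 * (2 * L) := by gcongr
      _ = 2 * ρ / Real.log 2 * L := by ring
  -- the bound for the function
  have hT : T (ff ρ) r ≤ Real.log (((k : ℝ) + 3) * r ^ nn k) := by
    have hrn : 1 ≤ r ^ nn k := one_le_pow₀ hk1
    apply T_le (ff_differentiable hρ) (by linarith)
    · nlinarith [(Nat.cast_nonneg k : (0 : ℝ) ≤ k)]
    · intro z hz
      refine (ff_norm_le hρ z).trans ?_
      rw [hz]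
      have hs := summable_term hρ (R := r) (by linarith)
      rw [← hs.sum_add_tsum_nat_add (k + 1)]
      have h1 : ∑ j ∈ Finset.range (k + 1), (r / bb ρ j) ^ nn j ≤ ((k : ℝ) + 1) * r ^ nn k := by
        have : ∀ j ∈ Finset.range (k + 1), (r / bb ρ j) ^ nn j ≤ r ^ nn k := by
          intro j hj
          have hjk : j ≤ k := by have := Finset.mem_range.1 hj; omega
          have hb := bb_one_le hρ j
          calc (r / bb ρ j) ^ nn j ≤ r ^ nn j := by
                apply pow_le_pow_left₀ (by positivity)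
                exact div_le_self (by linarith) hb
            _ ≤ r ^ nn k := pow_le_pow_right₀ hk1 (nn_strictMono.monotone hjk)
        have h2 := Finset.sum_le_sum this
        rw [Finset.sum_const, Finset.card_range, nsmul_eq_mul] at h2
        push_cast at h2
        exact h2
      have h2 : ∑' j, (r / bb ρ (j + (k + 1))) ^ nn (j + (k + 1)) ≤ 2 := by
        have h3 : ∀ j : ℕ, (r / bb ρ (j + (k + 1))) ^ nn (j + (k + 1)) ≤ (1 / 2) ^ j := by
          intro j
          have hb := bb_one_le hρ (j + (k + 1))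
          have hbm : bb ρ (k + 1) ≤ bb ρ (j + (k + 1)) := bb_mono hρ (by omega)
          have h4 : r / bb ρ (j + (k + 1)) ≤ 1 / 2 := by
            rw [div_le_iff₀ (by linarith), hr]; linarith
          calc (r / bb ρ (j + (k + 1))) ^ nn (j + (k + 1)) ≤ (1 / 2) ^ nn (j + (k + 1)) := by
                apply pow_le_pow_left₀ (by positivity) h4
            _ ≤ (1 / 2) ^ j := by
                apply pow_le_pow_of_le_one (by norm_num) (by norm_num)
                have := nn_lt (j + (k + 1))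
                omega
        have h5 := Summable.tsum_le_tsum h3 ((summable_nat_add_iff (k + 1)).2 hs)
          (summable_geometric_of_lt_one (by norm_num) (by norm_num))
        rw [tsum_geometric_of_lt_one (by norm_num) (by norm_num)] at h5
        norm_num at h5 ⊢
        exact h5
      nlinarith
  refine hT.trans ?_
  have hk3 : (0 : ℝ) < (k : ℝ) + 3 := by positivity
  rw [Real.log_mul hk3.ne' (by positivity), Real.log_pow]
  have h1 : Real.log ((k : ℝ) + 3) ≤ (k : ℝ) + 2 := by
    have := Real.log_le_sub_one_of_pos hk3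
    linarith
  have h2 : (k : ℝ) + 1 ≤ nn k := by exact_mod_cast nn_lt k
  have hq : 0 < 2 * ρ / Real.log 2 := by positivity
  calc Real.log ((k : ℝ) + 3) + (nn k : ℝ) * Real.log r ≤ 3 * (nn k : ℝ) * L := by
        rw [← hL]
        nlinarith
    _ ≤ 3 * (2 * ρ / Real.log 2 * L) * L := by gcongr
    _ = 3 * (2 * ρ / Real.log 2) * L ^ 2 := by ring

theorem lowerOrder_ff {ρ : ℝ} (hρ : 0 < ρ) : lowerOrder (ff ρ) = 0 := by
  have hd := ff_differentiable hρ
  have h00 : ((0 : ℝ) : EReal) = 0 := rfl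
  apply le_antisymm
  · rw [← h00, ← EReal.le_of_forall_lt_iff_le]
    intro z hz
    have hz' : 0 < z := by exact_mod_cast hz
    refine liminf_le_of_frequently_le ?_ (by isBoundedDefault)
    obtain ⟨C, hC, hfr⟩ := ff_T_small hρ
    have hlim : Tendsto (fun r : ℝ => (Real.log C + 2 * Real.log (Real.log r)) / Real.log r)
        atTop (𝓝 0) := by
      have h1 : Tendsto (fun L : ℝ => (Real.log C + 2 * Real.log L) / L) atTop (𝓝 0) := by
        have h2 : Tendsto (fun L : ℝ => Real.log C / L) atTop (𝓝 0) :=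
          Tendsto.div_atTop tendsto_const_nhds tendsto_id
        have h3 : Tendsto (fun L : ℝ => Real.log L / L) atTop (𝓝 0) := by
          have := Real.isLittleO_log_id_atTop.tendsto_div_nhds_zero
          simpa using this
        have h4 := h2.add (h3.const_mul 2)
        rw [mul_zero, add_zero] at h4
        refine h4.congr (fun L => ?_)
        ring
      exact h1.comp Real.tendsto_log_atTop
    have hev := hlim.eventually_le_const hz'
    have hev2 := Real.tendsto_log_atTop.eventually (eventually_ge_atTop 1)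
    refine ((hfr.and_eventually hev).and_eventually hev2).mono (fun r hr => ?_)
    obtain ⟨⟨h1, h2⟩, h3⟩ := hr
    rw [T_eq hd]
    have h4 : Real.log (T (ff ρ) r) / Real.log r ≤ z := by
      rcases (T_nonneg (ff ρ) r).eq_or_lt with h6 | h6
      · rw [← h6, Real.log_zero, zero_div]; exact hz'.le
      · refine le_trans ?_ h2
        have h7 : Real.log (T (ff ρ) r) ≤ Real.log C + 2 * Real.log (Real.log r) := by
          have h8 := Real.log_le_log h6 h1
          rw [Real.log_mul hC.ne' (by positivity), Real.log_pow] at h8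
          exact_mod_cast h8
        gcongr
    exact_mod_cast h4
  · refine le_liminf_of_le (by isBoundedDefault) ?_
    have hT := T_tendsto hd (by rw [order_ff hρ]; exact_mod_cast hρ)
    filter_upwards [hT.eventually (eventually_ge_atTop 1), eventually_ge_atTop 1] with r h1 h2
    rw [T_eq hd]
    have : 0 ≤ Real.log (T (ff ρ) r) / Real.log r :=
      div_nonneg (Real.log_nonneg h1) (Real.log_nonneg h2)
    exact_mod_cast this

end Pool.Agent.H9.Pf
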